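import Mathlib

/-!
# Decision trees for Exact Triangle with real weights: the model

The graph is complete tripartite with `n` vertices in each part. A test is free if it is locally
constant near a dense set of potentials (weights for which all closed walks have weight zero).
-/

set_option autoImplicit false

namespace Pool.Agent.N575.LDT

open Filter Topology

/-- the edges of the complete tripartite graph with `n` vertices in each part: `(0, i, j)` joins
the vertex `i` of the first and the vertex `j` of the second part, `(1, j, k)` joins the vertex `j`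
of the second and the vertex `k` of the third part, and `(2, i, k)` joins the vertex `i` of the
first and the vertex `k` of the third part -/
abbrev Edge (n : ℕ) : Type := Fin 3 × Fin n × Fin n

/-- the triangles `(i, j, k)` -/
abbrev Tri (n : ℕ) : Type := Fin n × Fin n × Fin n

/-- real edge weights -/
abbrev Wts (n : ℕ) : Type := Edge n → ℝ

/-- the weight of a triangle -/
def wt {n : ℕ} (w : Wts n) (t : Tri n) : ℝ := w (0, t.1, t.2.1) + w (1, t.2.1, t.2.2) + w (2, t.1, t.2.2)

/-- the edge weights given by a potential on the vertices: the weight of the edge from `a` to `b`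
is `x a - x b`, where the parts are in cyclic order -/
def pot {n : ℕ} (x : Fin 3 × Fin n → ℝ) : Wts n := fun e =>
  if e.1 = 0 then x (0, e.2.1) - x (1, e.2.2)
  else if e.1 = 1 then x (1, e.2.1) - x (2, e.2.2)
  else x (2, e.2.2) - x (0, e.2.1)

/-- a function of the weights which is locally constant near the potentials of a dense set -/
def Shallow {n : ℕ} (f : Wts n → ℤ) : Prop :=
  Dense {x : Fin 3 × Fin n → ℝ | ∀ᶠ w in 𝓝 (pot x), f w = f (pot x)}

/-- Decision trees. A node asks for the value of a shallow function, for the sign of the weight of a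
triangle, or for the sign of any linear form in the weights. The tree may be infinite, but each of
its branches is finite. -/
inductive Tree (n : ℕ) : Type
  | leaf (b : Bool) : Tree n
  | free (f : Wts n → ℤ) (hf : Shallow f) (next : ℤ → Tree n) : Tree n
  | tri (t : Tri n) (next : SignType → Tree n) : Tree n
  | lin (L : Edge n → ℝ) (next : SignType → Tree n) : Tree n

variable {n : ℕ}

/-- the answer -/
noncomputable def Tree.run : Tree n → Wts n → Bool
  | .leaf b, _ => b
  | .free f _ next, w => (next (f w)).run w
  | .tri t next, w => (next (SignType.sign (wt w t))).run w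
  | .lin L next, w => (next (SignType.sign (∑ e, L e * w e))).run w

/-- the number of the tests of the weights of triangles which are made for the weights `w` -/
noncomputable def Tree.tris : Tree n → Wts n → ℕ
  | .leaf _, _ => 0
  | .free f _ next, w => (next (f w)).tris w
  | .tri t next, w => (next (SignType.sign (wt w t))).tris w + 1
  | .lin L next, w => (next (SignType.sign (∑ e, L e * w e))).tris w

/-- the number of the other tests of linear forms which are made for the weights `w` -/
noncomputable def Tree.lins : Tree n → Wts n → ℕ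
  | .leaf _, _ => 0
  | .free f _ next, w => (next (f w)).lins w
  | .tri t next, w => (next (SignType.sign (wt w t))).lins w
  | .lin L next, w => (next (SignType.sign (∑ e, L e * w e))).lins w + 1

/-! ### simulation near the potentials -/

theorem wt_pot (x : Fin 3 × Fin n → ℝ) (t : Tri n) : wt (pot x) t = 0 := by
  unfold wt pot
  simp

theorem wt_add_smul (x : Fin 3 × Fin n → ℝ) (ε : ℝ) (u : Wts n) (t : Tri n) :
    wt (pot x + ε • u) t = ε * wt u t := by
  have h := wt_pot x t
  unfold wt at h ⊢
  simp only [Pi.add_apply, Pi.smul_apply, smul_eq_mul]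
  linear_combination h

theorem lin_add_smul (L : Edge n → ℝ) (p u : Wts n) (ε : ℝ) :
    ∑ e, L e * (p + ε • u) e = ∑ e, L e * p e + ε * ∑ e, L e * u e := by
  simp only [Pi.add_apply, Pi.smul_apply, smul_eq_mul, mul_add, Finset.sum_add_distrib,
    Finset.mul_sum]
  congr 1
  exact Finset.sum_congr rfl fun e _ => by ring

theorem pot_continuous : Continuous (pot : (Fin 3 × Fin n → ℝ) → Wts n) := by
  refine continuous_pi fun e => ?_
  unfold pot
  split_ifs <;> fun_prop

theorem tendsto_line (p u : Wts n) : Tendsto (fun ε : ℝ => p + ε • u) (𝓝[>] 0) (𝓝 p) := by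
  have h : Tendsto (fun ε : ℝ => p + ε • u) (𝓝 0) (𝓝 (p + (0 : ℝ) • u)) :=
    (continuous_const.add (continuous_id.smul continuous_const)).tendsto 0
  rw [zero_smul, add_zero] at h
  exact h.mono_left nhdsWithin_le_nhds

/-- what the tree does near the potential `x` in the direction `u` -/
def Good (t : Tree n) (x : Fin 3 × Fin n → ℝ) : Prop :=
  ∀ u₀ : Wts n, ∃ (V : List (Tri n)) (Ls : List (Edge n → ℝ)) (b : Bool), ∀ u : Wts n,
    (∀ s ∈ V, SignType.sign (wt u s) = SignType.sign (wt u₀ s)) →
    (∀ L ∈ Ls, ∑ e, L e * u e = ∑ e, L e * u₀ e) →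
    ∀ᶠ ε in 𝓝[>] (0 : ℝ), t.run (pot x + ε • u) = b ∧ t.tris (pot x + ε • u) = V.length ∧
      t.lins (pot x + ε • u) = Ls.length

theorem shallow_residual {f : Wts n → ℤ} (hf : Shallow f) :
    ∀ᶠ x in residual (Fin 3 × Fin n → ℝ), ∀ᶠ w in 𝓝 (pot x), f w = f (pot x) := by
  refine residual_of_dense_open ?_ hf
  rw [isOpen_iff_mem_nhds]
  intro x hx
  have h1 := pot_continuous.continuousAt.eventually (eventually_eventually_nhds.2 hx)
  filter_upwards [h1] with y hy
  have h2 : f (pot y) = f (pot x) := hy.self_of_nhds
  show ∀ᶠ w in 𝓝 (pot y), f w = f (pot y)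
  filter_upwards [hy] with w hw
  rw [hw, h2]

theorem sign_mul_pos {ε a : ℝ} (h : 0 < ε) : SignType.sign (ε * a) = SignType.sign a := by
  rw [sign_mul, sign_pos h, one_mul]

theorem good (t : Tree n) : ∀ᶠ x in residual (Fin 3 × Fin n → ℝ), Good t x := by
  induction t with
  | leaf b =>
    refine Eventually.of_forall fun x u₀ => ⟨[], [], b, fun u _ _ => ?_⟩
    exact Eventually.of_forall fun ε => ⟨rfl, rfl, rfl⟩
  | free f hf next ih =>
    filter_upwards [shallow_residual hf, eventually_countable_forall.2 ih] with x h1 h2 u₀
    obtain ⟨V, Ls, b, h3⟩ := h2 (f (pot x)) u₀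
    refine ⟨V, Ls, b, fun u hV hL => ?_⟩
    filter_upwards [h3 u hV hL, (tendsto_line (pot x) u).eventually h1] with ε h4 h5
    unfold Tree.run Tree.tris Tree.lins
    rw [h5]
    exact h4
  | tri t next ih =>
    filter_upwards [eventually_countable_forall.2 ih] with x h2 u₀
    obtain ⟨V, Ls, b, h3⟩ := h2 (SignType.sign (wt u₀ t)) u₀
    refine ⟨t :: V, Ls, b, fun u hV hL => ?_⟩
    filter_upwards [h3 u (fun s hs => hV s (List.mem_cons_of_mem _ hs)) hL,
      self_mem_nhdsWithin] with ε h4 h5
    have h6 : SignType.sign (wt (pot x + ε • u) t) = SignType.sign (wt u₀ t) := by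
      rw [wt_add_smul, sign_mul_pos h5]
      exact hV t List.mem_cons_self
    unfold Tree.run Tree.tris Tree.lins
    rw [h6, h4.1, h4.2.1, h4.2.2]
    exact ⟨rfl, rfl, rfl⟩
  | lin L next ih =>
    filter_upwards [eventually_countable_forall.2 ih] with x h2 u₀
    by_cases h0 : ∑ e, L e * pot x e = 0
    · obtain ⟨V, Ls, b, h3⟩ := h2 (SignType.sign (∑ e, L e * u₀ e)) u₀
      refine ⟨V, L :: Ls, b, fun u hV hL => ?_⟩
      filter_upwards [h3 u hV (fun s hs => hL s (List.mem_cons_of_mem _ hs)),
        self_mem_nhdsWithin] with ε h4 h5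
      have h6 : SignType.sign (∑ e, L e * (pot x + ε • u) e) =
          SignType.sign (∑ e, L e * u₀ e) := by
        rw [lin_add_smul, h0, zero_add, sign_mul_pos h5, hL L List.mem_cons_self]
      unfold Tree.run Tree.tris Tree.lins
      rw [h6, h4.1, h4.2.1, h4.2.2]
      exact ⟨rfl, rfl, rfl⟩
    · obtain ⟨V, Ls, b, h3⟩ := h2 (SignType.sign (∑ e, L e * pot x e)) u₀
      refine ⟨V, L :: Ls, b, fun u hV hL => ?_⟩
      have hc : Continuous (fun w : Wts n => ∑ e, L e * w e) := by fun_prop
      have h7 : ∀ᶠ w in 𝓝 (pot x), SignType.sign (∑ e, L e * w e) =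
          SignType.sign (∑ e, L e * pot x e) := by
        rcases lt_or_gt_of_ne h0 with h | h
        · filter_upwards [hc.continuousAt.eventually (gt_mem_nhds h)] with w hw
          rw [sign_neg hw, sign_neg h]
        · filter_upwards [hc.continuousAt.eventually (lt_mem_nhds h)] with w hw
          rw [sign_pos hw, sign_pos h]
      filter_upwards [h3 u hV (fun s hs => hL s (List.mem_cons_of_mem _ hs)),
        (tendsto_line (pot x) u).eventually h7] with ε h4 h5
      unfold Tree.run Tree.tris Tree.lins
      rw [h5, h4.1, h4.2.1, h4.2.2]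
      exact ⟨rfl, rfl, rfl⟩

end Pool.Agent.N575.LDT
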