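import Mathlib
import Pool.Agent.N575.LDT.Model

/-!
# Linear algebra: few linear forms are nearly orthogonal to most triangles
-/

set_option autoImplicit false

namespace Pool.Agent.N575.LDT

open Finset

variable {n : ℕ}

/-- the space of weights with the standard inner product -/
abbrev HW (n : ℕ) : Type := EuclideanSpace ℝ (Edge n)

/-- the indicator vector of a triangle -/
noncomputable def ind (t : Tri n) : HW n := WithLp.toLp 2 fun e =>
  (if e = (0, t.1, t.2.1) then 1 else 0) + (if e = (1, t.2.1, t.2.2) then 1 else 0) +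
    (if e = (2, t.1, t.2.2) then 1 else 0)

theorem inner_eq (x y : HW n) : inner ℝ x y = ∑ e, x e * y e := by
  rw [PiLp.inner_apply]
  refine Finset.sum_congr rfl fun e _ => ?_
  simp [mul_comm]

theorem inner_ind (t : Tri n) (w : HW n) : inner ℝ (ind t) w = wt (fun e => w e) t := by
  rw [inner_eq]
  unfold ind wt
  simp only [add_mul, ite_mul, one_mul, zero_mul, Finset.sum_add_distrib]
  simp

theorem ind_inner (t : Tri n) (w : HW n) : inner ℝ w (ind t) = wt (fun e => w e) t := by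
  rw [real_inner_comm, inner_ind]

theorem wt_ind (s t : Tri n) : wt (fun e => ind t e) s =
    (if s.1 = t.1 ∧ s.2.1 = t.2.1 then 1 else 0) + (if s.2.1 = t.2.1 ∧ s.2.2 = t.2.2 then 1 else 0) +
      (if s.1 = t.1 ∧ s.2.2 = t.2.2 then 1 else 0) := by
  unfold wt ind
  simp [Prod.ext_iff]

theorem ind_self (t : Tri n) : inner ℝ (ind t) (ind t) = 3 := by
  rw [inner_ind, wt_ind]
  norm_num

theorem ind_ne {s t : Tri n} (h : s ≠ t) : inner ℝ (ind s) (ind t) ≤ 1 := by
  rw [inner_ind, wt_ind]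
  obtain ⟨a, b, c⟩ := s
  obtain ⟨a', b', c'⟩ := t
  by_cases h1 : a = a' <;> by_cases h2 : b = b' <;> by_cases h3 : c = c' <;>
    simp [h1, h2, h3] at h ⊢

/-- the weights of all triangles together -/
theorem sum_wt_sq (w : Wts n) : ∑ t : Tri n, wt w t ^ 2 ≤ 3 * n * ∑ e, w e ^ 2 := by
  have h1 : ∑ t : Tri n, wt w t ^ 2 ≤
      ∑ t : Tri n, 3 * (w (0, t.1, t.2.1) ^ 2 + w (1, t.2.1, t.2.2) ^ 2 + w (2, t.1, t.2.2) ^ 2) := by
    refine sum_le_sum fun t _ => ?_
    unfold wt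
    nlinarith [sq_nonneg (w (0, t.1, t.2.1) - w (1, t.2.1, t.2.2)),
      sq_nonneg (w (0, t.1, t.2.1) - w (2, t.1, t.2.2)),
      sq_nonneg (w (1, t.2.1, t.2.2) - w (2, t.1, t.2.2))]
  refine h1.trans (le_of_eq ?_)
  rw [← mul_sum, sum_add_distrib, sum_add_distrib]
  have e0 : ∑ t : Tri n, w (0, t.1, t.2.1) ^ 2 = n * ∑ p : Fin n × Fin n, w (0, p) ^ 2 := by
    rw [Fintype.sum_prod_type, Fintype.sum_prod_type, mul_sum]
    refine sum_congr rfl fun i _ => ?_
    rw [Fintype.sum_prod_type, mul_sum]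
    refine sum_congr rfl fun j _ => ?_
    show ∑ _y : Fin n, w (0, i, j) ^ 2 = n * w (0, i, j) ^ 2
    rw [sum_const, card_univ, Fintype.card_fin, nsmul_eq_mul]
  have e1 : ∑ t : Tri n, w (1, t.2.1, t.2.2) ^ 2 = n * ∑ p : Fin n × Fin n, w (1, p) ^ 2 := by
    rw [Fintype.sum_prod_type]
    show ∑ _y : Fin n, ∑ p : Fin n × Fin n, w (1, p.1, p.2) ^ 2 = _
    rw [sum_const, card_univ, Fintype.card_fin, nsmul_eq_mul]
  have e2 : ∑ t : Tri n, w (2, t.1, t.2.2) ^ 2 = n * ∑ p : Fin n × Fin n, w (2, p) ^ 2 := by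
    rw [Fintype.sum_prod_type, Fintype.sum_prod_type, mul_sum]
    refine sum_congr rfl fun i _ => ?_
    rw [Fintype.sum_prod_type]
    show ∑ _y : Fin n, ∑ k : Fin n, w (2, i, k) ^ 2 = _
    rw [sum_const, card_univ, Fintype.card_fin, nsmul_eq_mul]
  rw [e0, e1, e2]
  have e3 : ∑ e, w e ^ 2 = ∑ p : Fin n × Fin n, w (0, p) ^ 2 + ∑ p : Fin n × Fin n, w (1, p) ^ 2 +
      ∑ p : Fin n × Fin n, w (2, p) ^ 2 := by
    rw [Fintype.sum_prod_type, Fin.sum_univ_three]
  rw [e3]
  ring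

/-- the sum of the squares of the projections of the triangles to a subspace -/
theorem sum_proj (K : Submodule ℝ (HW n)) :
    ∑ t : Tri n, ‖K.orthogonalProjectionOnto (ind t)‖ ^ 2 ≤ 3 * n * Module.finrank ℝ K := by
  have b := stdOrthonormalBasis ℝ K
  have h1 : ∀ t : Tri n, ‖K.orthogonalProjectionOnto (ind t)‖ ^ 2 =
      ∑ i, wt (fun e => (b i : HW n) e) t ^ 2 := by
    intro t
    rw [← b.sum_sq_norm_inner_right (K.orthogonalProjectionOnto (ind t))]
    refine sum_congr rfl fun i _ => ?_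
    rw [← ind_inner, Submodule.inner_orthogonalProjectionOnto_eq_of_mem_left, Real.norm_eq_abs,
      sq_abs]
  rw [sum_congr rfl fun t _ => h1 t, sum_comm]
  have h2 : ∀ i, ∑ t : Tri n, wt (fun e => (b i : HW n) e) t ^ 2 ≤ 3 * n := by
    intro i
    refine (sum_wt_sq _).trans (le_of_eq ?_)
    have h3 : ∑ e, (b i : HW n) e ^ 2 = 1 := by
      have h4 : ‖(b i : HW n)‖ = 1 := b.orthonormal.1 i
      have h5 := EuclideanSpace.norm_sq_eq (b i : HW n)
      rw [h4] at h5
      simp only [Real.norm_eq_abs, sq_abs] at h5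
      rw [← h5]
      norm_num
    rw [h3, mul_one]
  refine (sum_le_sum fun i _ => h2 i).trans ?_
  rw [sum_const, card_univ, Fintype.card_fin, nsmul_eq_mul]
  exact le_of_eq (by ring)

/-- a triangle outside of `V` whose weight can be moved while few linear forms are kept fixed -/
theorem exists_dir (V : Finset (Tri n)) (Ls : List (Edge n → ℝ))
    (h : V.card + 5 * n * Ls.length < n ^ 3) :
    ∃ t, t ∉ V ∧ ∃ v : Wts n, (∀ L ∈ Ls, ∑ e, L e * v e = 0) ∧ wt v t = -1 ∧
      ∀ s, s ≠ t → -1 < wt v s := by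
  classical
  obtain ⟨K, hK⟩ : ∃ K : Submodule ℝ (HW n),
      K = Submodule.span ℝ ((Ls.map (fun L => (WithLp.toLp 2 L : HW n))).toFinset : Set (HW n)) :=
    ⟨_, rfl⟩
  have hdim : Module.finrank ℝ K ≤ Ls.length := by
    rw [hK]
    refine (finrank_span_finset_le_card _).trans ?_
    refine (List.toFinset_card_le _).trans ?_
    rw [List.length_map]
  have hmem : ∀ L ∈ Ls, (WithLp.toLp 2 L : HW n) ∈ K := by
    intro L hL
    rw [hK]
    apply Submodule.subset_span
    rw [Finset.mem_coe, List.mem_toFinset]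
    exact List.mem_map.2 ⟨L, hL, rfl⟩
  -- a triangle with small projection
  obtain ⟨t, htV, ht⟩ : ∃ t, t ∉ V ∧ ‖K.orthogonalProjectionOnto (ind t)‖ ^ 2 < 3 / 5 := by
    by_contra hc
    push Not at hc
    have h1 : (univ : Finset (Tri n)) ⊆
        V ∪ univ.filter (fun t => 3 / 5 ≤ ‖K.orthogonalProjectionOnto (ind t)‖ ^ 2) := by
      intro t _
      rw [mem_union, mem_filter]
      by_cases h2 : t ∈ V
      · exact Or.inl h2
      · exact Or.inr ⟨mem_univ _, hc t h2⟩
    have h2 := (card_le_card h1).trans (card_union_le _ _)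
    have h3 : (univ : Finset (Tri n)).card = n ^ 3 := by
      rw [card_univ, Fintype.card_prod, Fintype.card_prod, Fintype.card_fin]
      ring
    rw [h3] at h2
    have h4 : (3 / 5 : ℝ) * (univ.filter
        (fun t => 3 / 5 ≤ ‖K.orthogonalProjectionOnto (ind t)‖ ^ 2)).card ≤ 3 * n * Ls.length := by
      have h5 : ∑ t ∈ univ.filter (fun t => 3 / 5 ≤ ‖K.orthogonalProjectionOnto (ind t)‖ ^ 2),
          (3 / 5 : ℝ) ≤ ∑ t : Tri n, ‖K.orthogonalProjectionOnto (ind t)‖ ^ 2 := by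
        refine (sum_le_sum fun t ht => (mem_filter.1 ht).2).trans ?_
        exact sum_le_sum_of_subset_of_nonneg (filter_subset _ _) fun t _ _ => sq_nonneg _
      rw [sum_const, nsmul_eq_mul] at h5
      have h6 : (3 * n * Module.finrank ℝ K : ℝ) ≤ 3 * n * Ls.length := by
        have : (Module.finrank ℝ K : ℝ) ≤ Ls.length := by exact_mod_cast hdim
        exact mul_le_mul_of_nonneg_left this (by positivity)
      linarith [sum_proj K]
    have h5 : (univ.filter
        (fun t => 3 / 5 ≤ ‖K.orthogonalProjectionOnto (ind t)‖ ^ 2)).card ≤ 5 * n * Ls.length := by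
      have : ((univ.filter (fun t => 3 / 5 ≤
          ‖K.orthogonalProjectionOnto (ind t)‖ ^ 2)).card : ℝ) ≤ 5 * n * Ls.length := by linarith
      exact_mod_cast this
    omega
  refine ⟨t, htV, ?_⟩
  obtain ⟨κ, hκ⟩ : ∃ κ : ℝ, κ = ‖K.orthogonalProjectionOnto (ind t)‖ ^ 2 := ⟨_, rfl⟩
  obtain ⟨P, hP⟩ : ∃ P : HW n, P = K.orthogonalProjectionOnto (ind t) := ⟨_, rfl⟩
  rw [← hκ] at ht
  have hκ0 : 0 ≤ κ := by rw [hκ]; exact sq_nonneg _
  have hPn : ‖P‖ ^ 2 = κ := by rw [hP, hκ]; rfl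
  have hPt : inner ℝ P (ind t) = κ := by
    have h1 := Submodule.inner_orthogonalProjectionOnto_eq_of_mem_left (K := K) (𝕜 := ℝ)
      (K.orthogonalProjectionOnto (ind t)) (ind t)
    rw [← hP] at h1
    rw [← h1, real_inner_self_eq_norm_sq, hκ]
  have hPs : ∀ s, (inner ℝ P (ind s)) ^ 2 ≤ 3 * κ := by
    intro s
    have h1 := abs_real_inner_le_norm P (ind s)
    have h2 : ‖ind s‖ ^ 2 = 3 := by rw [← real_inner_self_eq_norm_sq, ind_self]
    have h3 : (inner ℝ P (ind s)) ^ 2 ≤ (‖P‖ * ‖ind s‖) ^ 2 := sq_le_sq' (by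
      linarith [(abs_le.1 h1).1]) (abs_le.1 h1).2
    calc (inner ℝ P (ind s)) ^ 2 ≤ (‖P‖ * ‖ind s‖) ^ 2 := h3
      _ = 3 * κ := by rw [mul_pow, hPn, h2]; ring
  have h3κ : 0 < 3 - κ := by linarith
  obtain ⟨v, hv⟩ : ∃ v : HW n, v = (-(1 / (3 - κ))) • (ind t - P) := ⟨_, rfl⟩
  refine ⟨fun e => v e, ?_, ?_, ?_⟩
  · intro L hL
    have h1 : inner ℝ (WithLp.toLp 2 L : HW n) v = 0 := by
      rw [hv, inner_smul_right]
      have h2 : inner ℝ (WithLp.toLp 2 L : HW n) (ind t - P) = 0 := by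
        rw [inner_sub_right, sub_eq_zero]
        have h3 := Submodule.inner_orthogonalProjectionOnto_eq_of_mem_left (K := K) (𝕜 := ℝ)
          ⟨WithLp.toLp 2 L, hmem L hL⟩ (ind t)
        rw [← h3, Submodule.coe_inner, hP]
      rw [h2, mul_zero]
    rw [inner_eq] at h1
    exact h1
  · rw [← inner_ind, hv, inner_smul_right, inner_sub_right, ind_self, real_inner_comm P (ind t),
      hPt]
    field_simp
  · intro s hs
    rw [← inner_ind, hv, inner_smul_right, inner_sub_right]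
    have h1 := ind_ne hs
    have h2 := hPs s
    rw [real_inner_comm] at h2
    obtain ⟨y, hy⟩ : ∃ y : ℝ, y = inner ℝ (ind s) P := ⟨_, rfl⟩
    rw [← hy] at h2 ⊢
    have h3 : -y < 2 - κ := by
      by_contra h4
      push Not at h4
      have h5 : (2 - κ) ^ 2 ≤ y ^ 2 := by nlinarith
      nlinarith
    have h4 : (inner ℝ (ind s) (ind t) - y) / (3 - κ) < 1 := by
      rw [div_lt_one h3κ]
      linarith
    have h5 : -(1 / (3 - κ)) * (inner ℝ (ind s) (ind t) - y) =
        -((inner ℝ (ind s) (ind t) - y) / (3 - κ)) := by ring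
    rw [h5]
    linarith

end Pool.Agent.N575.LDT
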