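import Mathlib

/-!
# The standard Gaussian measure: density, translations, reflections, tails
-/

set_option autoImplicit false

namespace Pool.Agent.N575.LDT

open MeasureTheory ProbabilityTheory Module
open scoped RealInnerProductSpace ENNReal

variable {E : Type*} [NormedAddCommGroup E] [InnerProductSpace ℝ E] [FiniteDimensional ℝ E]
  [MeasurableSpace E] [BorelSpace E]

/-- the normalising constant -/
noncomputable def gz (E : Type*) [NormedAddCommGroup E] [InnerProductSpace ℝ E]
    [FiniteDimensional ℝ E] [MeasurableSpace E] [BorelSpace E] : ℝ :=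
  ∫ v : E, Real.exp (-(1 / 2) * ‖v‖ ^ 2)

theorem gz_eq : gz E = (Real.pi / (1 / 2)) ^ (Module.finrank ℝ E / 2 : ℝ) :=
  GaussianFourier.integral_rexp_neg_mul_sq_norm (by norm_num)

theorem gz_pos : 0 < gz E := by
  rw [gz_eq]
  exact Real.rpow_pos_of_pos (div_pos Real.pi_pos (by norm_num)) _

theorem integrable_gauss : Integrable (fun v : E => Real.exp (-(1 / 2) * ‖v‖ ^ 2)) := by
  by_contra h
  have h1 := integral_undef h
  have h2 := gz_pos (E := E)
  unfold gz at h2
  rw [h1] at h2
  exact lt_irrefl _ h2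

/-- the density -/
noncomputable def gd (g : E) : ℝ := Real.exp (-(1 / 2) * ‖g‖ ^ 2) / gz E

theorem gd_nonneg (g : E) : 0 ≤ gd g := div_nonneg (Real.exp_pos _).le gz_pos.le

theorem gd_measurable : Measurable (gd : E → ℝ) := by
  unfold gd
  fun_prop

theorem std_eq : stdGaussian E = (volume : Measure E).withDensity fun g => ENNReal.ofReal (gd g) := by
  have hi : Integrable (gd : E → ℝ) := integrable_gauss.div_const _
  have : IsFiniteMeasure ((volume : Measure E).withDensity fun g => ENNReal.ofReal (gd g)) :=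
    isFiniteMeasure_withDensity_ofReal hi.2
  apply Measure.ext_of_charFun
  funext t
  rw [charFun_stdGaussian, charFun_apply, integral_withDensity_eq_integral_toReal_smul
    (gd_measurable.ennreal_ofReal) (Filter.Eventually.of_forall fun g => ENNReal.ofReal_lt_top)]
  have h1 := GaussianFourier.integral_cexp_neg_mul_sq_norm_add (V := E) (b := 1 / 2)
    (by norm_num) Complex.I t
  have h2 : ∀ g : E, (ENNReal.ofReal (gd g)).toReal • Complex.exp (⟪g, t⟫ * Complex.I) =
      (gz E : ℂ)⁻¹ * Complex.exp (-(1 / 2) * ‖g‖ ^ 2 + Complex.I * ⟪t, g⟫) := by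
    intro g
    rw [ENNReal.toReal_ofReal (gd_nonneg g), Complex.real_smul, Complex.exp_add]
    unfold gd
    rw [real_inner_comm t g]
    push_cast
    rw [mul_comm (⟪t, g⟫ : ℂ) Complex.I]
    ring
  simp_rw [h2]
  rw [integral_const_mul, h1]
  have h3 : (gz E : ℂ) = (Real.pi / (1 / 2)) ^ (Module.finrank ℝ E / 2 : ℂ) := by
    rw [gz_eq, Complex.ofReal_cpow (by positivity)]
    push_cast
    rfl
  rw [← h3, ← mul_assoc, inv_mul_cancel₀ (by exact_mod_cast (gz_pos (E := E)).ne'), one_mul,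
    Complex.I_sq]
  congr 1
  ring

theorem gd_add (g a : E) : gd (g + a) = gd g * Real.exp (-⟪g, a⟫ - ‖a‖ ^ 2 / 2) := by
  unfold gd
  rw [div_mul_eq_mul_div, ← Real.exp_add]
  congr 2
  rw [← real_inner_self_eq_norm_sq, ← real_inner_self_eq_norm_sq, ← real_inner_self_eq_norm_sq,
    inner_add_left, inner_add_right, inner_add_right, real_inner_comm g a]
  ring

/-- translations -/
theorem lintegral_shift {F : E → ℝ≥0∞} (hF : Measurable F) (a : E) :
    ∫⁻ g, F (g - a) ∂(stdGaussian E) =
      ∫⁻ g, F g * ENNReal.ofReal (Real.exp (-⟪g, a⟫ - ‖a‖ ^ 2 / 2)) ∂(stdGaussian E) := by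
  have hm : Measurable fun g : E => ENNReal.ofReal (Real.exp (-⟪g, a⟫ - ‖a‖ ^ 2 / 2)) := by
    fun_prop
  have hF' : Measurable fun g : E => F (g - a) := hF.comp (measurable_id.sub_const a)
  have hG : Measurable fun g : E => F g * ENNReal.ofReal (Real.exp (-⟪g, a⟫ - ‖a‖ ^ 2 / 2)) :=
    hF.mul hm
  rw [std_eq, lintegral_withDensity_eq_lintegral_mul _ gd_measurable.ennreal_ofReal hF',
    lintegral_withDensity_eq_lintegral_mul _ gd_measurable.ennreal_ofReal hG]
  have h1 := lintegral_sub_right_eq_self (μ := (volume : Measure E))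
    (fun g => ENNReal.ofReal (gd (g + a)) * F g) a
  simp only [sub_add_cancel] at h1
  simp only [Pi.mul_apply]
  rw [h1]
  refine lintegral_congr fun g => ?_
  rw [gd_add, ENNReal.ofReal_mul (gd_nonneg g)]
  ring

/-- linear isometries -/
theorem lintegral_isometry {F : E → ℝ≥0∞} (hF : Measurable F) (f : E ≃ₗᵢ[ℝ] E) :
    ∫⁻ g, F (f g) ∂(stdGaussian E) = ∫⁻ g, F g ∂(stdGaussian E) := by
  conv_rhs => rw [← stdGaussian_map f]
  rw [lintegral_map hF f.continuous.measurable]

theorem integral_isometry (F : E → ℝ) (f : E ≃ₗᵢ[ℝ] E) :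
    ∫ g, F (f g) ∂(stdGaussian E) = ∫ g, F g ∂(stdGaussian E) := by
  conv_rhs => rw [← stdGaussian_map f]
  exact (f.toHomeomorph.measurableEmbedding.integral_map F).symm

theorem integrable_norm_std : Integrable (fun g : E => ‖g‖) (stdGaussian E) :=
  (IsGaussian.integrable_id (μ := stdGaussian E)).norm

/-- the law of a linear form -/
theorem map_inner (v : E) : (stdGaussian E).map (fun g => ⟪v, g⟫) = gaussianReal 0 (‖v‖₊ ^ 2) := by
  have h := IsGaussian.map_eq_gaussianReal (μ := stdGaussian E) (innerSL ℝ v)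
  rw [integral_strongDual_stdGaussian, variance_dual_stdGaussian, innerSL_apply_norm] at h
  have e : (‖v‖ ^ 2).toNNReal = ‖v‖₊ ^ 2 := by
    rw [Real.toNNReal_pow (norm_nonneg v)]
    congr 1
    exact norm_toNNReal
  rw [e] at h
  exact h

/-- the tail of a linear form -/
theorem tail (v : E) {a : ℝ} (ha : 0 ≤ a) (hv : 0 < ‖v‖) :
    (stdGaussian E).real {g | a ≤ ⟪v, g⟫} ≤ Real.exp (-(a ^ 2 / (2 * ‖v‖ ^ 2))) := by
  have hm : Measurable fun g : E => ⟪v, g⟫ := by fun_prop
  have h1 : (stdGaussian E).real {g | a ≤ ⟪v, g⟫} =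
      (gaussianReal 0 (‖v‖₊ ^ 2)).real {x | a ≤ id x} := by
    rw [← map_inner v, map_measureReal_apply hm (measurableSet_le measurable_const measurable_id)]
    rfl
  rw [h1]
  have h2 := measure_ge_le_exp_mul_mgf (μ := gaussianReal 0 (‖v‖₊ ^ 2)) (X := id) a
    (t := a / ‖v‖ ^ 2) (by positivity) (by
      simpa using integrable_exp_mul_gaussianReal (μ := 0) (v := ‖v‖₊ ^ 2) (a / ‖v‖ ^ 2))
  refine h2.trans (le_of_eq ?_)
  rw [mgf_id_gaussianReal, ← Real.exp_add]
  congr 1
  have hv' : ‖v‖ ≠ 0 := hv.ne'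
  push_cast
  field_simp
  ring

end Pool.Agent.N575.LDT
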