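import Mathlib
import Pool.Agent.N575.LDT.Gauss

/-!
# Trees of linear tests and Gaussian noise
-/

set_option autoImplicit false

namespace Pool.Agent.N575.LDT

open MeasureTheory ProbabilityTheory Module
open scoped RealInnerProductSpace ENNReal

/-- trees of tests of signs of linear forms -/
inductive LTree (E : Type) : Type
  | leaf (b : Bool) : LTree E
  | node (L : E) (next : SignType → LTree E) : LTree E

variable {E : Type} [NormedAddCommGroup E] [InnerProductSpace ℝ E] [FiniteDimensional ℝ E]
  [MeasurableSpace E] [BorelSpace E]

/-- the answer -/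
noncomputable def LTree.run : LTree E → E → Bool
  | .leaf b, _ => b
  | .node L next, u => (next (SignType.sign ⟪L, u⟫)).run u

/-- the forms which are tested -/
noncomputable def LTree.path : LTree E → E → List E
  | .leaf _, _ => []
  | .node L next, u => L :: (next (SignType.sign ⟪L, u⟫)).path u

omit [FiniteDimensional ℝ E] [MeasurableSpace E] [BorelSpace E] in
theorem run_leaf (b : Bool) (u : E) : (LTree.leaf b).run u = b := rfl

omit [FiniteDimensional ℝ E] [MeasurableSpace E] [BorelSpace E] in
theorem run_node (L : E) (next : SignType → LTree E) (u : E) :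
    (LTree.node L next).run u = (next (SignType.sign ⟪L, u⟫)).run u := rfl

omit [FiniteDimensional ℝ E] [MeasurableSpace E] [BorelSpace E] in
theorem path_leaf (b : Bool) (u : E) : (LTree.leaf b).path u = [] := rfl

omit [FiniteDimensional ℝ E] [MeasurableSpace E] [BorelSpace E] in
theorem path_node (L : E) (next : SignType → LTree E) (u : E) :
    (LTree.node L next).path u = L :: (next (SignType.sign ⟪L, u⟫)).path u := rfl

omit [FiniteDimensional ℝ E] [MeasurableSpace E] [BorelSpace E] in
theorem run_smul (r : LTree E) {c : ℝ} (hc : 0 < c) (u : E) : r.run (c • u) = r.run u := by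
  induction r with
  | leaf b => rfl
  | node L next ih =>
    unfold LTree.run
    rw [inner_smul_right, sign_mul, sign_pos hc, one_mul]
    exact ih _

omit [FiniteDimensional ℝ E] [MeasurableSpace E] [BorelSpace E] in
theorem path_smul (r : LTree E) {c : ℝ} (hc : 0 < c) (u : E) : r.path (c • u) = r.path u := by
  induction r with
  | leaf b => rfl
  | node L next ih =>
    unfold LTree.path
    rw [inner_smul_right, sign_mul, sign_pos hc, one_mul, ih _]

/-- the span of a list -/
def spn (ls : List E) : Submodule ℝ E := Submodule.span ℝ {x | x ∈ ls}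

/-- the projection of `s` to the span of a list -/
noncomputable def dir (s : E) (ls : List E) : E := (spn ls).starProjection s

omit [MeasurableSpace E] [BorelSpace E] in
theorem inner_dir (s : E) (ls : List E) {L : E} (hL : L ∈ ls) : ⟪L, dir s ls⟫ = ⟪L, s⟫ := by
  have h1 : L ∈ spn ls := Submodule.subset_span hL
  unfold dir
  rw [← Submodule.inner_starProjection_left_eq_right]
  congr 1
  exact (Submodule.starProjection_eq_self_iff).2 h1

omit [MeasurableSpace E] [BorelSpace E] in
theorem dir_nil (s : E) : dir s ([] : List E) = 0 := by
  unfold dir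
  rw [Submodule.starProjection_apply_eq_zero_iff]
  have : spn ([] : List E) = ⊥ := by
    unfold spn
    rw [Submodule.span_eq_bot]
    intro x hx
    simp at hx
  rw [this, Submodule.bot_orthogonal_eq_top]
  exact Submodule.mem_top

omit [MeasurableSpace E] [BorelSpace E] in
theorem norm_dir_le (s : E) (ls : List E) : ‖dir s ls‖ ≤ ‖s‖ :=
  Submodule.norm_starProjection_apply_le _ _

/-- piecewise constant functions are measurable -/
theorem measurable_tree {β : Type*} [MeasurableSpace β] (r : LTree E) (Φ : Bool → List E → β) :
    Measurable fun u => Φ (r.run u) (r.path u) := by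
  induction r generalizing Φ with
  | leaf b =>
    simp only [run_leaf, path_leaf]
    exact measurable_const
  | node L next ih =>
    have hL : Measurable fun u : E => ⟪L, u⟫ := by fun_prop
    have h : (fun u => Φ ((LTree.node L next).run u) ((LTree.node L next).path u)) = fun u =>
        if ⟪L, u⟫ < 0 then Φ ((next (-1)).run u) (L :: (next (-1)).path u)
        else if ⟪L, u⟫ = 0 then Φ ((next 0).run u) (L :: (next 0).path u)
        else Φ ((next 1).run u) (L :: (next 1).path u) := by
      funext u
      rw [run_node, path_node]
      rcases lt_trichotomy ⟪L, u⟫ 0 with h | h | h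
      · rw [if_pos h, sign_neg h]
      · rw [if_neg h.not_lt, if_pos h, h, sign_zero]
      · rw [if_neg h.not_gt, if_neg h.ne', sign_pos h]
    rw [h]
    refine Measurable.ite (measurableSet_lt hL measurable_const)
      (ih (-1) fun b l => Φ b (L :: l)) ?_
    exact Measurable.ite (measurableSet_eq_fun hL measurable_const)
      (ih 0 fun b l => Φ b (L :: l)) (ih 1 fun b l => Φ b (L :: l))

/-- a measurable set which is invariant under translations orthogonal to `ls` -/
structure Cell (ls : List E) (D : Set E) : Prop where
  meas : MeasurableSet D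
  inv : ∀ u z : E, (∀ L ∈ ls, ⟪L, z⟫ = 0) → u ∈ D → u + z ∈ D

theorem Cell.iff {ls : List E} {D : Set E} (h : Cell ls D) (u z : E)
    (hz : ∀ L ∈ ls, ⟪L, z⟫ = 0) : u + z ∈ D ↔ u ∈ D := by
  refine ⟨fun h1 => ?_, h.inv u z hz⟩
  have h2 := h.inv (u + z) (-z) (fun L hL => by rw [inner_neg_right, hz L hL, neg_zero]) h1
  rwa [add_neg_cancel_right] at h2

/-- the part of a cell where a form has a given sign -/
def sub (D : Set E) (L : E) (e : SignType) : Set E := {u | u ∈ D ∧ SignType.sign ⟪L, u⟫ = e}

theorem sign_meas (L : E) (e : SignType) : MeasurableSet {u : E | SignType.sign ⟪L, u⟫ = e} := by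
  have hL : Measurable fun u : E => ⟪L, u⟫ := by fun_prop
  rcases e with _ | _ | _
  · have : {u : E | SignType.sign ⟪L, u⟫ = SignType.zero} = {u | ⟪L, u⟫ = 0} := by
      ext u; exact sign_eq_zero_iff
    rw [this]
    exact measurableSet_eq_fun hL measurable_const
  · have : {u : E | SignType.sign ⟪L, u⟫ = SignType.neg} = {u | ⟪L, u⟫ < 0} := by
      ext u; exact sign_eq_neg_one_iff
    rw [this]
    exact measurableSet_lt hL measurable_const
  · have : {u : E | SignType.sign ⟪L, u⟫ = SignType.pos} = {u | 0 < ⟪L, u⟫} := by
      ext u; exact sign_eq_one_iff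
    rw [this]
    exact measurableSet_lt measurable_const hL

theorem Cell.sub {ls : List E} {D : Set E} (h : Cell ls D) (L : E) (e : SignType) :
    Cell (ls ++ [L]) (sub D L e) := by
  refine ⟨h.meas.inter (sign_meas L e), ?_⟩
  rintro u z hz ⟨h1, h2⟩
  refine ⟨h.inv u z (fun L' hL' => hz L' (List.mem_append_left _ hL')) h1, ?_⟩
  rw [inner_add_right, hz L (List.mem_append_right _ (List.mem_singleton_self L)), add_zero]
  exact h2

omit [FiniteDimensional ℝ E] [MeasurableSpace E] [BorelSpace E] in
/-- decomposition of the indicator of a cell -/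
theorem ind_sub {β : Type*} [AddCommMonoid β] (D : Set E) (L u : E) (f : SignType → β) :
    D.indicator (fun u => f (SignType.sign ⟪L, u⟫)) u =
      ∑ e : SignType, (LDT.sub D L e).indicator (fun _ => f e) u := by
  classical
  by_cases h : u ∈ D
  · rw [Set.indicator_of_mem h]
    rw [Finset.sum_eq_single (SignType.sign ⟪L, u⟫)]
    · rw [Set.indicator_of_mem]
      exact ⟨h, rfl⟩
    · intro e _ he
      rw [Set.indicator_of_notMem]
      exact fun h1 => he h1.2.symm
    · intro h1
      exact absurd (Finset.mem_univ _) h1
  · rw [Set.indicator_of_notMem h]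
    symm
    refine Finset.sum_eq_zero fun e _ => ?_
    rw [Set.indicator_of_notMem]
    exact fun h1 => h h1.1

/-- the weight of the change of measure -/
noncomputable def wgt (a g : E) : ℝ := Real.exp (-⟪g, a⟫ - ‖a‖ ^ 2 / 2)

/-- change of measure along the branches of a tree -/
theorem claimS (r : LTree E) (p s : E) (h : Bool → ℝ≥0∞) (ls : List E) (D : Set E)
    (hD : Cell ls D) :
    ∫⁻ g, D.indicator (fun u => h (r.run u)) (p - s + g) ∂(stdGaussian E) =
      ∫⁻ g, D.indicator (fun u => h (r.run u)) (p + g) *
        ENNReal.ofReal (wgt (dir s (ls ++ r.path (p + g))) g) ∂(stdGaussian E) := by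
  induction r generalizing ls D with
  | leaf b =>
    have hF : Measurable fun g : E => D.indicator (fun _ => h b) (p + g) :=
      (measurable_const.indicator hD.meas).comp (measurable_const_add p)
    have h1 := lintegral_shift hF (dir s ls)
    simp only [run_leaf, path_leaf, List.append_nil]
    unfold wgt
    rw [← h1]
    refine lintegral_congr fun g => ?_
    have e : p + (g - dir s ls) = p - s + g + (s - dir s ls) := by abel
    rw [e]
    have h2 := hD.iff (p - s + g) (s - dir s ls) (fun L hL => by
      rw [inner_sub_right, inner_dir s ls hL, sub_self])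
    by_cases h3 : p - s + g ∈ D
    · rw [Set.indicator_of_mem h3, Set.indicator_of_mem (h2.2 h3)]
    · rw [Set.indicator_of_notMem h3, Set.indicator_of_notMem (fun h4 => h3 (h2.1 h4))]
  | node L next ih =>
    have e1 : ∀ u, D.indicator (fun u => h ((LTree.node L next).run u)) u =
        ∑ e : SignType, (LDT.sub D L e).indicator (fun u => h ((next e).run u)) u := by
      intro u
      have := ind_sub D L u (fun e => h ((next e).run u))
      by_cases h3 : u ∈ D
      · rw [Set.indicator_of_mem h3] at this ⊢
        rw [run_node, this]
        refine Finset.sum_congr rfl fun e _ => ?_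
        by_cases h4 : u ∈ LDT.sub D L e
        · rw [Set.indicator_of_mem h4, Set.indicator_of_mem h4]
        · rw [Set.indicator_of_notMem h4, Set.indicator_of_notMem h4]
      · rw [Set.indicator_of_notMem h3]
        symm
        refine Finset.sum_eq_zero fun e _ => ?_
        rw [Set.indicator_of_notMem (fun h4 => h3 h4.1)]
    have e2 : ∀ g, D.indicator (fun u => h ((LTree.node L next).run u)) (p + g) *
        ENNReal.ofReal (wgt (dir s (ls ++ (LTree.node L next).path (p + g))) g) =
        ∑ e : SignType, (LDT.sub D L e).indicator (fun u => h ((next e).run u)) (p + g) *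
          ENNReal.ofReal (wgt (dir s (ls ++ [L] ++ (next e).path (p + g))) g) := by
      intro g
      rw [e1, Finset.sum_mul]
      refine Finset.sum_congr rfl fun e _ => ?_
      by_cases h4 : p + g ∈ LDT.sub D L e
      · have h5 : (LTree.node L next).path (p + g) = L :: (next e).path (p + g) := by
          show L :: (next (SignType.sign ⟪L, p + g⟫)).path (p + g) = _
          rw [h4.2]
        rw [h5, List.append_assoc, List.singleton_append]
      · rw [Set.indicator_of_notMem h4, zero_mul, zero_mul]
    have hm : ∀ e, Measurable ((LDT.sub D L e).indicator fun u => h ((next e).run u)) := fun e =>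
      (measurable_tree (next e) fun b _ => h b).indicator (hD.sub L e).meas
    have hw : ∀ e, Measurable fun g : E =>
        ENNReal.ofReal (wgt (dir s (ls ++ [L] ++ (next e).path (p + g))) g) := by
      intro e
      have h1 : Measurable fun g : E => dir s (ls ++ [L] ++ (next e).path (p + g)) :=
        (measurable_tree (next e) fun _ l => dir s (ls ++ [L] ++ l)).comp (measurable_const_add p)
      unfold wgt
      exact ((Measurable.exp ((measurable_id.inner h1).neg.sub
        ((h1.norm.pow_const 2).div_const 2)))).ennreal_ofReal
    have hm1 : ∀ e, Measurable fun g : E =>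
        (LDT.sub D L e).indicator (fun u => h ((next e).run u)) (p - s + g) := fun e =>
      (hm e).comp (measurable_const_add _)
    have hm2 : ∀ e, Measurable fun g : E =>
        (LDT.sub D L e).indicator (fun u => h ((next e).run u)) (p + g) *
          ENNReal.ofReal (wgt (dir s (ls ++ [L] ++ (next e).path (p + g))) g) := fun e =>
      ((hm e).comp (measurable_const_add _)).mul (hw e)
    simp_rw [e2, e1]
    rw [lintegral_finsetSum _ fun e _ => hm1 e, lintegral_finsetSum _ fun e _ => hm2 e]
    exact Finset.sum_congr rfl fun e _ => ih e (ls ++ [L]) (LDT.sub D L e) (hD.sub L e)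

end Pool.Agent.N575.LDT
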