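import Mathlib
import Pool.Agent.N575.LDT.LTree

/-!
# Trees of linear tests and Gaussian noise: the mean of the linear term, and the main inequality
-/

set_option autoImplicit false

namespace Pool.Agent.N575.LDT

open MeasureTheory ProbabilityTheory Module
open scoped RealInnerProductSpace ENNReal

variable {E : Type} [NormedAddCommGroup E] [InnerProductSpace ℝ E] [FiniteDimensional ℝ E]
  [MeasurableSpace E] [BorelSpace E]

theorem ind_le (D : Set E) (u : E) : ‖D.indicator (fun _ => (1 : ℝ)) u‖ ≤ 1 := by
  by_cases h : u ∈ D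
  · rw [Set.indicator_of_mem h]; simp
  · rw [Set.indicator_of_notMem h]; simp

theorem int_lin {D : Set E} (hD : MeasurableSet D) (p : E) {v : E → E} (hv : Measurable v) {C : ℝ}
    (hC : ∀ g, ‖v g‖ ≤ C) :
    Integrable (fun g => D.indicator (fun _ => (1 : ℝ)) (p + g) * ⟪g, v g⟫) (stdGaussian E) := by
  refine (integrable_norm_std.const_mul C).mono' ?_ ?_
  · exact ((((measurable_const.indicator hD).comp (measurable_const_add p)).mul
      (measurable_id.inner hv))).aestronglyMeasurable
  · refine Filter.Eventually.of_forall fun g => ?_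
    rw [norm_mul]
    have h1 := ind_le D (p + g)
    have h2 : ‖⟪g, v g⟫‖ ≤ ‖g‖ * C := (norm_inner_le_norm g (v g)).trans
      (mul_le_mul_of_nonneg_left (hC g) (norm_nonneg g))
    have hC0 : 0 ≤ C := (norm_nonneg _).trans (hC g)
    calc ‖D.indicator (fun _ => (1 : ℝ)) (p + g)‖ * ‖⟪g, v g⟫‖ ≤ 1 * (‖g‖ * C) :=
          mul_le_mul h1 h2 (norm_nonneg _) zero_le_one
      _ = C * ‖g‖ := by ring

/-- reflection symmetry -/
theorem refl_zero {ls : List E} {D : Set E} (hD : Cell ls D) (p z : E)
    (hz : ∀ L ∈ ls, ⟪L, z⟫ = 0) :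
    ∫ g, D.indicator (fun _ => (1 : ℝ)) (p + g) * ⟪g, z⟫ ∂(stdGaussian E) = 0 := by
  by_cases h0 : z = 0
  · subst h0
    simp
  have hz0 : ⟪z, z⟫ ≠ 0 := by
    rw [real_inner_self_eq_norm_sq]
    exact pow_ne_zero 2 (norm_ne_zero_iff.2 h0)
  have h1 := integral_isometry (fun g => D.indicator (fun _ => (1 : ℝ)) (p + g) * ⟪g, z⟫)
    (Submodule.reflection (Submodule.span ℝ {z})ᗮ)
  have h2 : ∀ g : E, (Submodule.reflection (Submodule.span ℝ {z})ᗮ) g =
      g - (2 * (⟪z, g⟫ / ⟪z, z⟫)) • z := by
    intro g
    rw [Submodule.reflection_orthogonal_apply, Submodule.reflection_singleton_apply]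
    rw [real_inner_self_eq_norm_sq]
    simp only [RCLike.ofReal_real_eq_id, id_eq]
    module
  have h3 : ∀ g : E, D.indicator (fun _ => (1 : ℝ))
      (p + (Submodule.reflection (Submodule.span ℝ {z})ᗮ) g) *
        ⟪(Submodule.reflection (Submodule.span ℝ {z})ᗮ) g, z⟫ =
      -(D.indicator (fun _ => (1 : ℝ)) (p + g) * ⟪g, z⟫) := by
    intro g
    rw [h2]
    have e1 : p + (g - (2 * (⟪z, g⟫ / ⟪z, z⟫)) • z) = p + g + (-(2 * (⟪z, g⟫ / ⟪z, z⟫))) • z := by
      module
    have e2 : D.indicator (fun _ => (1 : ℝ)) (p + (g - (2 * (⟪z, g⟫ / ⟪z, z⟫)) • z)) =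
        D.indicator (fun _ => (1 : ℝ)) (p + g) := by
      rw [e1]
      have h4 := hD.iff (p + g) ((-(2 * (⟪z, g⟫ / ⟪z, z⟫))) • z) (fun L hL => by
        rw [inner_smul_right, hz L hL, mul_zero])
      by_cases h5 : p + g ∈ D
      · rw [Set.indicator_of_mem h5, Set.indicator_of_mem (h4.2 h5)]
      · rw [Set.indicator_of_notMem h5, Set.indicator_of_notMem (fun h6 => h5 (h4.1 h6))]
    have e3 : ⟪g - (2 * (⟪z, g⟫ / ⟪z, z⟫)) • z, z⟫ = -⟪g, z⟫ := by
      rw [inner_sub_left, inner_smul_left, real_inner_comm z g]
      simp only [conj_trivial]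
      field_simp
      ring
    rw [e2, e3]
    ring
  simp_rw [h3] at h1
  rw [integral_neg] at h1
  linarith

/-- the mean of the linear term -/
theorem claimM (r : LTree E) (p s : E) (ls : List E) (D : Set E) (hD : Cell ls D) :
    ∫ g, D.indicator (fun _ => (1 : ℝ)) (p + g) * ⟪g, dir s (ls ++ r.path (p + g))⟫
        ∂(stdGaussian E) =
      ∫ g, D.indicator (fun _ => (1 : ℝ)) (p + g) * ⟪g, dir s ls⟫ ∂(stdGaussian E) := by
  induction r generalizing ls D with
  | leaf b =>
    simp only [path_leaf, List.append_nil]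
  | node L next ih =>
    have e1 : ∀ u, D.indicator (fun _ => (1 : ℝ)) u =
        ∑ e : SignType, (LDT.sub D L e).indicator (fun _ => (1 : ℝ)) u := by
      intro u
      have := ind_sub D L u (fun _ => (1 : ℝ))
      exact this
    have e2 : ∀ g, D.indicator (fun _ => (1 : ℝ)) (p + g) *
        ⟪g, dir s (ls ++ (LTree.node L next).path (p + g))⟫ =
        ∑ e : SignType, (LDT.sub D L e).indicator (fun _ => (1 : ℝ)) (p + g) *
          ⟪g, dir s (ls ++ [L] ++ (next e).path (p + g))⟫ := by
      intro g
      rw [e1, Finset.sum_mul]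
      refine Finset.sum_congr rfl fun e _ => ?_
      by_cases h4 : p + g ∈ LDT.sub D L e
      · have h5 : (LTree.node L next).path (p + g) = L :: (next e).path (p + g) := by
          rw [path_node, h4.2]
        rw [h5, List.append_assoc, List.singleton_append]
      · rw [Set.indicator_of_notMem h4, zero_mul, zero_mul]
    have hw : ∀ e, Measurable fun g : E => dir s (ls ++ [L] ++ (next e).path (p + g)) := fun e =>
      (measurable_tree (next e) fun _ l => dir s (ls ++ [L] ++ l)).comp (measurable_const_add p)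
    simp_rw [e2]
    rw [integral_finsetSum _ fun e _ =>
      int_lin (hD.sub L e).meas p (hw e) (fun g => norm_dir_le s _)]
    rw [Finset.sum_congr rfl fun e _ => ih e (ls ++ [L]) (LDT.sub D L e) (hD.sub L e),
      ← integral_finsetSum _ fun e _ =>
      int_lin (hD.sub L e).meas p measurable_const (fun g => norm_dir_le s _)]
    have e3 : ∀ g, ∑ e : SignType, (LDT.sub D L e).indicator (fun _ => (1 : ℝ)) (p + g) *
        ⟪g, dir s (ls ++ [L])⟫ = D.indicator (fun _ => (1 : ℝ)) (p + g) *
          ⟪g, dir s (ls ++ [L])⟫ := by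
      intro g
      rw [← Finset.sum_mul, ← e1]
    simp_rw [e3]
    have h6 := refl_zero hD p (dir s (ls ++ [L]) - dir s ls) (fun L' hL' => by
      rw [inner_sub_right, inner_dir s _ (List.mem_append_left _ hL'), inner_dir s _ hL', sub_self])
    simp only [inner_sub_right, mul_sub] at h6
    rw [integral_sub (int_lin hD.meas p measurable_const (fun g => norm_dir_le s _))
      (int_lin hD.meas p measurable_const (fun g => norm_dir_le s _))] at h6
    linarith

theorem log_ineq {x : ℝ} (hx : 0 < x) : (max (1 - x) 0) ^ 2 ≤ 2 * (-Real.log x) - 2 * (1 - x) := by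
  rcases le_total x 1 with h | h
  · rw [max_eq_left (by linarith)]
    -- `-log x ≥ (1 - x) + (1 - x) ^ 2 / 2`
    have key : ∀ y ∈ Set.Ico (0 : ℝ) 1, y + y ^ 2 / 2 ≤ -Real.log (1 - y) := by
      intro y hy
      have h1 := Real.hasSum_pow_div_log_of_abs_lt_one (x := y) (by
        rw [abs_of_nonneg hy.1]; exact hy.2)
      have h2 := sum_le_hasSum (Finset.range 2) (fun i _ => by
        have := hy.1
        positivity) h1
      simp only [Finset.sum_range_succ, Finset.sum_range_zero] at h2
      norm_num at h2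
      linarith
    have := key (1 - x) ⟨by linarith, by linarith⟩
    rw [sub_sub_cancel] at this
    linarith
  · rw [max_eq_right (by linarith)]
    have := Real.log_le_sub_one_of_pos hx
    nlinarith

/-- the weight of a leaf -/
noncomputable def W (r : LTree E) (p s g : E) : ℝ := wgt (dir s (r.path (p + g))) g

theorem W_pos (r : LTree E) (p s g : E) : 0 < W r p s g := Real.exp_pos _

theorem W_meas (r : LTree E) (p s : E) : Measurable (W r p s) := by
  have h1 : Measurable fun g : E => dir s (r.path (p + g)) :=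
    (measurable_tree r fun _ l => dir s l).comp (measurable_const_add p)
  unfold W wgt
  exact (Measurable.exp ((measurable_id.inner h1).neg.sub ((h1.norm.pow_const 2).div_const 2)))

theorem W_lint (r : LTree E) (p s : E) (h : Bool → ℝ≥0∞) :
    ∫⁻ g, h (r.run (p - s + g)) ∂(stdGaussian E) =
      ∫⁻ g, h (r.run (p + g)) * ENNReal.ofReal (W r p s g) ∂(stdGaussian E) := by
  have h1 := claimS r p s h [] Set.univ ⟨MeasurableSet.univ, fun _ _ _ _ => Set.mem_univ _⟩
  simp only [Set.indicator_univ, List.nil_append] at h1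
  exact h1

theorem W_int (r : LTree E) (p s : E) : Integrable (W r p s) (stdGaussian E) ∧
    ∫ g, W r p s g ∂(stdGaussian E) = 1 := by
  have h1 := W_lint r p s (fun _ => 1)
  simp only [lintegral_const, measure_univ, one_mul] at h1
  have hi : Integrable (W r p s) (stdGaussian E) := by
    refine ⟨(W_meas r p s).aestronglyMeasurable, ?_⟩
    rw [hasFiniteIntegral_iff_ofReal (Filter.Eventually.of_forall fun g => (W_pos r p s g).le),
      ← h1]
    exact ENNReal.one_lt_top
  refine ⟨hi, ?_⟩
  rw [integral_eq_lintegral_of_nonneg_ae (Filter.Eventually.of_forall fun g => (W_pos r p s g).le)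
    hi.1, ← h1]
  simp

/-- the probability of acceptance -/
noncomputable def pr (r : LTree E) (p : E) : ℝ := (stdGaussian E).real {g | r.run (p + g) = true}

theorem acc_meas (r : LTree E) (p : E) : MeasurableSet {g : E | r.run (p + g) = true} := by
  have h1 : Measurable fun g : E => r.run (p + g) :=
    (measurable_tree r fun b _ => b).comp (measurable_const_add p)
  exact h1 (measurableSet_singleton true)

theorem pr_shift (r : LTree E) (p s : E) :
    pr r (p - s) = ∫ g in {g | r.run (p + g) = true}, W r p s g ∂(stdGaussian E) := by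
  have h1 := W_lint r p s (fun b => if b = true then 1 else 0)
  have hm := acc_meas r (p - s)
  have hm' := acc_meas r p
  have e1 : ∫⁻ g, (if r.run (p - s + g) = true then (1 : ℝ≥0∞) else 0) ∂(stdGaussian E) =
      (stdGaussian E) {g | r.run (p - s + g) = true} := by
    rw [← lintegral_indicator_one hm]
    refine lintegral_congr fun g => ?_
    by_cases h : r.run (p - s + g) = true
    · rw [if_pos h, Set.indicator_of_mem (by exact h)]; rfl
    · rw [if_neg h, Set.indicator_of_notMem (by exact h)]
  have e2 : ∫⁻ g, (if r.run (p + g) = true then (1 : ℝ≥0∞) else 0) * ENNReal.ofReal (W r p s g)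
      ∂(stdGaussian E) = ∫⁻ g in {g | r.run (p + g) = true}, ENNReal.ofReal (W r p s g)
        ∂(stdGaussian E) := by
    rw [← lintegral_indicator hm']
    refine lintegral_congr fun g => ?_
    by_cases h : r.run (p + g) = true
    · rw [if_pos h, Set.indicator_of_mem (by exact h), one_mul]
    · rw [if_neg h, Set.indicator_of_notMem (by exact h), zero_mul]
  rw [e1, e2] at h1
  unfold pr Measure.real
  rw [h1, integral_eq_lintegral_of_nonneg_ae
    (Filter.Eventually.of_forall fun g => (W_pos r p s g).le)
    (W_int r p s).1.1.restrict]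

/-- **The main inequality**: the effect of a translation of the input of a tree of linear tests is
bounded by the mean square of the projections to the spans of the tested forms. -/
theorem main_ineq (r : LTree E) (p s : E) :
    pr r p ≤ pr r (p - s) + √(∫ g, ‖dir s (r.path (p + g))‖ ^ 2 ∂(stdGaussian E)) := by
  obtain ⟨hWi, hW1⟩ := W_int r p s
  have hm := acc_meas r p
  have hF : Measurable fun g : E => dir s (r.path (p + g)) :=
    (measurable_tree r fun _ l => dir s l).comp (measurable_const_add p)
  have hlin : Integrable (fun g => ⟪g, dir s (r.path (p + g))⟫) (stdGaussian E) := by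
    have := int_lin (E := E) MeasurableSet.univ p hF (fun g => norm_dir_le s _)
    simpa using this
  have hlin0 : ∫ g, ⟪g, dir s (r.path (p + g))⟫ ∂(stdGaussian E) = 0 := by
    have := claimM r p s [] Set.univ ⟨MeasurableSet.univ, fun _ _ _ _ => Set.mem_univ _⟩
    simp only [Set.indicator_univ, List.nil_append, one_mul, dir_nil, inner_zero_right,
      integral_zero] at this
    exact this
  have hsq : Integrable (fun g => ‖dir s (r.path (p + g))‖ ^ 2) (stdGaussian E) := by
    refine (integrable_const (‖s‖ ^ 2)).mono' ((hF.norm.pow_const 2).aestronglyMeasurable) ?_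
    refine Filter.Eventually.of_forall fun g => ?_
    rw [Real.norm_eq_abs, abs_of_nonneg (sq_nonneg _)]
    exact pow_le_pow_left₀ (norm_nonneg _) (norm_dir_le s _) 2
  obtain ⟨X, hX⟩ : ∃ X : E → ℝ, X = fun g => max (1 - W r p s g) 0 := ⟨_, rfl⟩
  have hXm : Measurable X := by
    rw [hX]; exact (measurable_const.sub (W_meas r p s)).max measurable_const
  have hX0 : ∀ g, 0 ≤ X g := fun g => by rw [hX]; exact le_max_right _ _
  have hX1 : ∀ g, X g ≤ 1 := fun g => by
    rw [hX]; exact max_le (by linarith [W_pos r p s g]) zero_le_one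
  have hXi : Integrable X (stdGaussian E) := by
    refine (integrable_const (1 : ℝ)).mono' hXm.aestronglyMeasurable ?_
    exact Filter.Eventually.of_forall fun g => by
      rw [Real.norm_eq_abs, abs_of_nonneg (hX0 g)]; exact hX1 g
  have hX2i : Integrable (fun g => X g ^ 2) (stdGaussian E) := by
    refine (integrable_const (1 : ℝ)).mono' (hXm.pow_const 2).aestronglyMeasurable ?_
    exact Filter.Eventually.of_forall fun g => by
      rw [Real.norm_eq_abs, abs_of_nonneg (sq_nonneg _)]
      nlinarith [hX0 g, hX1 g]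
  -- the difference of the probabilities
  have h1 : pr r p - pr r (p - s) ≤ ∫ g, X g ∂(stdGaussian E) := by
    have e1 : pr r p = ∫ _g in {g | r.run (p + g) = true}, (1 : ℝ) ∂(stdGaussian E) := by
      rw [setIntegral_const, smul_eq_mul, mul_one]; rfl
    rw [pr_shift, e1, ← integral_sub (integrable_const _).integrableOn hWi.integrableOn]
    calc ∫ g in {g | r.run (p + g) = true}, (1 - W r p s g) ∂(stdGaussian E)
        ≤ ∫ g in {g | r.run (p + g) = true}, X g ∂(stdGaussian E) := by
          refine integral_mono ((integrable_const _).sub hWi).integrableOn hXi.integrableOn ?_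
          intro g
          rw [hX]; exact le_max_left _ _
      _ ≤ ∫ g, X g ∂(stdGaussian E) :=
          setIntegral_le_integral hXi (Filter.Eventually.of_forall hX0)
  -- Jensen
  have h2 : (∫ g, X g ∂(stdGaussian E)) ^ 2 ≤ ∫ g, X g ^ 2 ∂(stdGaussian E) := by
    obtain ⟨c, hc⟩ : ∃ c, c = ∫ g, X g ∂(stdGaussian E) := ⟨_, rfl⟩
    have h3 : 0 ≤ ∫ g, (X g - c) ^ 2 ∂(stdGaussian E) :=
      integral_nonneg fun g => sq_nonneg _
    have h4 : ∫ g, (X g - c) ^ 2 ∂(stdGaussian E) =
        ∫ g, X g ^ 2 ∂(stdGaussian E) - 2 * c * c + c ^ 2 := by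
      have e : ∀ g, (X g - c) ^ 2 = X g ^ 2 - 2 * c * X g + c ^ 2 := fun g => by ring
      have i2 : Integrable (fun g => 2 * c * X g) (stdGaussian E) := hXi.const_mul (2 * c)
      have i1 : Integrable (fun g => X g ^ 2 - 2 * c * X g) (stdGaussian E) := hX2i.sub i2
      simp_rw [e]
      rw [integral_add i1 (integrable_const _), integral_sub hX2i i2, integral_const_mul,
        integral_const, ← hc]
      simp
    rw [h4] at h3
    rw [← hc]
    nlinarith
  have h3 : ∫ g, X g ^ 2 ∂(stdGaussian E) ≤
      ∫ g, ‖dir s (r.path (p + g))‖ ^ 2 ∂(stdGaussian E) := by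
    have e1 : ∀ g, X g ^ 2 ≤ 2 * ⟪g, dir s (r.path (p + g))⟫ +
        ‖dir s (r.path (p + g))‖ ^ 2 - 2 * (1 - W r p s g) := by
      intro g
      have h5 := log_ineq (W_pos r p s g)
      have h6 : Real.log (W r p s g) = -⟪g, dir s (r.path (p + g))⟫ -
          ‖dir s (r.path (p + g))‖ ^ 2 / 2 := by
        unfold W wgt
        rw [Real.log_exp]
      rw [h6] at h5
      rw [hX]
      linarith
    calc ∫ g, X g ^ 2 ∂(stdGaussian E) ≤ ∫ g, (2 * ⟪g, dir s (r.path (p + g))⟫ +
        ‖dir s (r.path (p + g))‖ ^ 2 - 2 * (1 - W r p s g)) ∂(stdGaussian E) := by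
          refine integral_mono hX2i ?_ e1
          exact ((hlin.const_mul 2).add hsq).sub (((integrable_const 1).sub hWi).const_mul 2)
      _ = ∫ g, ‖dir s (r.path (p + g))‖ ^ 2 ∂(stdGaussian E) := by
          have i1 : Integrable (fun g => 2 * ⟪g, dir s (r.path (p + g))⟫) (stdGaussian E) :=
            hlin.const_mul 2
          have i2 : Integrable (fun g => 2 * ⟪g, dir s (r.path (p + g))⟫ +
            ‖dir s (r.path (p + g))‖ ^ 2) (stdGaussian E) := i1.add hsq
          have i3 : Integrable (fun g => 1 - W r p s g) (stdGaussian E) :=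
            (integrable_const 1).sub hWi
          have i4 : Integrable (fun g => 2 * (1 - W r p s g)) (stdGaussian E) := i3.const_mul 2
          rw [integral_sub i2 i4, integral_add i1 hsq, integral_const_mul, hlin0,
            integral_const_mul, integral_sub (integrable_const 1) hWi, hW1]
          simp
  have h4 : ∫ g, X g ∂(stdGaussian E) ≤
      √(∫ g, ‖dir s (r.path (p + g))‖ ^ 2 ∂(stdGaussian E)) :=
    Real.le_sqrt_of_sq_le (h2.trans h3)
  linarith

end Pool.Agent.N575.LDT
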