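import Mathlib
import Pool.Agent.N575.LDT.Alg

/-!
# The lower bound, exhaustive search, and examples of shallow functions
-/

set_option autoImplicit false

namespace Pool.Agent.N575.LDT

open Filter Topology Finset

variable {n : ℕ}

/-- the weights `1 / 3` -/
noncomputable def third : Wts n := fun _ => 1 / 3

theorem wt_third (s : Tri n) : wt third s = 1 := by
  unfold wt third
  norm_num

theorem wt_add (u v : Wts n) (s : Tri n) : wt (u + v) s = wt u s + wt v s := by
  unfold wt
  simp only [Pi.add_apply]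
  ring

/-- the lower bound -/
theorem lower {ι : Type} [Finite ι] (t : ι → Tree n)
    (sound : ∀ i w, (t i).run w = true → ∀ s, wt w s ≠ 0) :
    ∃ w : Wts n, (∀ s, 0 < wt w s) ∧
      ∀ i, (t i).run w = true → n ^ 3 ≤ (t i).tris w + 5 * n * (t i).lins w := by
  obtain ⟨x, hx⟩ : ∃ x, ∀ i, Good (t i) x :=
    (dense_of_mem_residual (eventually_countable_forall.2 fun i => good (t i))).nonempty
  choose V Ls b h using fun i => hx i third
  have h1 : ∀ᶠ ε in 𝓝[>] (0 : ℝ), ∀ i, (t i).run (pot x + ε • third) = b i ∧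
      (t i).tris (pot x + ε • third) = (V i).length ∧
      (t i).lins (pot x + ε • third) = (Ls i).length :=
    eventually_all.2 fun i => h i third (fun _ _ => rfl) (fun _ _ => rfl)
  obtain ⟨ε, h2, hε⟩ := (h1.and self_mem_nhdsWithin).exists
  have hε' : 0 < ε := hε
  refine ⟨pot x + ε • third, ?_, ?_⟩
  · intro s
    rw [wt_add_smul, wt_third, mul_one]
    exact hε'
  · intro i hi
    obtain ⟨h3, h4, h5⟩ := h2 i
    rw [h4, h5]
    by_contra hc
    push Not at hc
    have hb : b i = true := by rw [← h3, hi]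
    obtain ⟨τ, hτ, v, hL, hv, hs⟩ := exists_dir (V i).toFinset (Ls i)
      (lt_of_le_of_lt (Nat.add_le_add_right (List.toFinset_card_le _) _) hc)
    have h6 := h i (third + v) (by
      intro s hsV
      have hne : s ≠ τ := by
        rintro rfl
        exact hτ (List.mem_toFinset.2 hsV)
      rw [wt_add, wt_third, sign_pos (by linarith [hs s hne]), sign_pos one_pos]) (by
      intro L hLi
      have := hL L hLi
      simp only [Pi.add_apply, mul_add, Finset.sum_add_distrib]
      rw [this, add_zero])
    obtain ⟨δ, h7⟩ := h6.exists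
    refine sound i _ (h7.1.trans hb) τ ?_
    rw [wt_add_smul, wt_add, wt_third, hv]
    ring

/-- testing a list of triangles -/
def search : List (Tri n) → Tree n
  | [] => .leaf true
  | s :: l => .tri s fun r => if r = 0 then .leaf false else search l

theorem search_spec (l : List (Tri n)) (w : Wts n) :
    ((search l).run w = true ↔ ∀ s ∈ l, wt w s ≠ 0) ∧ (search l).tris w ≤ l.length ∧
      (search l).lins w = 0 := by
  induction l with
  | nil => exact ⟨by simp [search, Tree.run], le_rfl, rfl⟩
  | cons s l ih =>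
    unfold search Tree.run Tree.tris Tree.lins
    beta_reduce
    by_cases h : SignType.sign (wt w s) = 0
    · rw [if_pos h]
      refine ⟨?_, ?_, rfl⟩
      · simp only [Tree.run, Bool.false_eq_true, List.mem_cons, forall_eq_or_imp, false_iff, not_and]
        intro h1
        exact absurd (sign_eq_zero_iff.1 h) h1
      · simp [Tree.tris]
    · rw [if_neg h]
      refine ⟨?_, ?_, ih.2.2⟩
      · rw [ih.1]
        simp only [List.mem_cons, forall_eq_or_imp]
        constructor
        · intro h1
          exact ⟨fun h2 => h (sign_eq_zero_iff.2 h2), h1⟩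
        · exact fun h1 => h1.2
      · rw [List.length_cons]
        exact Nat.add_le_add_right ih.2.1 1

/-- exhaustive search -/
theorem upper (n : ℕ) : ∃ t : Tree n, ∀ w : Wts n, (t.run w = true ↔ ∀ s, wt w s ≠ 0) ∧
    t.tris w ≤ n ^ 3 ∧ t.lins w = 0 := by
  refine ⟨search (univ : Finset (Tri n)).toList, fun w => ?_⟩
  obtain ⟨h1, h2, h3⟩ := search_spec (univ : Finset (Tri n)).toList w
  refine ⟨?_, ?_, h3⟩
  · rw [h1]
    simp
  · refine h2.trans (le_of_eq ?_)
    rw [Finset.length_toList, card_univ, Fintype.card_prod, Fintype.card_prod, Fintype.card_fin]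
    ring

/-! ### examples of shallow functions -/

theorem pot_add (x y : Fin 3 × Fin n → ℝ) : pot (x + y) = pot x + pot y := by
  funext e
  unfold pot
  simp only [Pi.add_apply]
  split_ifs <;> ring

theorem pot_smul (c : ℝ) (x : Fin 3 × Fin n → ℝ) : pot (c • x) = c • pot x := by
  funext e
  unfold pot
  simp only [Pi.smul_apply, smul_eq_mul]
  split_ifs <;> ring

/-- the potentials as a continuous linear map -/
noncomputable def potL (n : ℕ) : (Fin 3 × Fin n → ℝ) →L[ℝ] Wts n :=
  { toFun := pot
    map_add' := pot_add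
    map_smul' := fun c x => pot_smul c x
    cont := pot_continuous }

theorem dense_ne {g : Wts n → ℝ} (hg : AnalyticOnNhd ℝ g Set.univ) {x₀ : Fin 3 × Fin n → ℝ}
    (h : g (pot x₀) ≠ 0) : Dense {x | g (pot x) ≠ 0} := by
  have ha : AnalyticOnNhd ℝ (fun x => g (pot x)) Set.univ := by
    intro x _
    exact (hg (pot x) (Set.mem_univ _)).fun_comp ((potL n).analyticAt x)
  by_contra hd
  have h1 : ∃ x, x ∉ closure {x | g (pot x) ≠ 0} := by
    by_contra hc
    push Not at hc
    exact hd hc
  obtain ⟨x, hx⟩ := h1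
  have h2 : (fun x => g (pot x)) =ᶠ[𝓝 x] 0 := by
    have h3 : (closure {x | g (pot x) ≠ 0})ᶜ ∈ 𝓝 x := isClosed_closure.isOpen_compl.mem_nhds hx
    filter_upwards [h3] with y hy
    by_contra h4
    exact hy (subset_closure h4)
  have h3 := ha.eqOn_zero_of_preconnected_of_eventuallyEq_zero isPreconnected_univ
    (Set.mem_univ x) h2
  exact h (h3 (Set.mem_univ x₀))

/-- the sign of an analytic function which does not vanish on all potentials -/
theorem shallow_sign {g : Wts n → ℝ} (hg : AnalyticOnNhd ℝ g Set.univ)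
    (h : ∃ x, g (pot x) ≠ 0) : Shallow fun w => ((SignType.sign (g w) : SignType) : ℤ) := by
  obtain ⟨x₀, h0⟩ := h
  refine (dense_ne hg h0).mono fun x hx => ?_
  have hc : ContinuousAt g (pot x) := (hg (pot x) (Set.mem_univ _)).continuousAt
  have hx' : g (pot x) ≠ 0 := hx
  show ∀ᶠ w in 𝓝 (pot x), ((SignType.sign (g w) : SignType) : ℤ) = (SignType.sign (g (pot x)) : SignType)
  rcases lt_or_gt_of_ne hx' with h1 | h1
  · filter_upwards [hc.eventually (gt_mem_nhds h1)] with w hw
    rw [sign_neg hw, sign_neg h1]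
  · filter_upwards [hc.eventually (lt_mem_nhds h1)] with w hw
    rw [sign_pos hw, sign_pos h1]

/-- the integer part of an analytic function which is not integral on all potentials -/
theorem shallow_floor {g : Wts n → ℝ} (hg : AnalyticOnNhd ℝ g Set.univ)
    (h : ∃ x, ∀ m : ℤ, g (pot x) ≠ m) : Shallow fun w => ⌊g w⌋ := by
  obtain ⟨x₀, h0⟩ := h
  have hs : AnalyticOnNhd ℝ (fun w => Real.sin (Real.pi * g w)) Set.univ := by
    intro w hw
    exact Real.analyticAt_sin.fun_comp (analyticAt_const.mul (hg w hw))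
  have h0' : Real.sin (Real.pi * g (pot x₀)) ≠ 0 := by
    intro h1
    obtain ⟨m, hm⟩ := Real.sin_eq_zero_iff.1 h1
    exact h0 m (mul_left_cancel₀ Real.pi_ne_zero (by linarith))
  refine (dense_ne (g := fun w => Real.sin (Real.pi * g w)) hs h0').mono fun x hx => ?_
  have hc : ContinuousAt g (pot x) := (hg (pot x) (Set.mem_univ _)).continuousAt
  have h1 : (⌊g (pot x)⌋ : ℝ) < g (pot x) := by
    refine lt_of_le_of_ne (Int.floor_le _) ?_
    intro h2
    apply hx
    show Real.sin (Real.pi * g (pot x)) = 0
    rw [← h2, mul_comm]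
    exact Real.sin_int_mul_pi _
  have h2 : g (pot x) < ⌊g (pot x)⌋ + 1 := Int.lt_floor_add_one _
  show ∀ᶠ w in 𝓝 (pot x), ⌊g w⌋ = ⌊g (pot x)⌋
  filter_upwards [hc.eventually (lt_mem_nhds h1), hc.eventually (gt_mem_nhds h2)] with w h3 h4
  rw [Int.floor_eq_iff]
  exact ⟨h3.le, h4⟩

end Pool.Agent.N575.LDT
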