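import Mathlib
import Pool.Agent.N575.LDT.Main
import Pool.Agent.N575.LDT.LTree2

/-!
# Reduction of decision trees near a generic potential, and removal of the tests of triangles
-/

set_option autoImplicit false

namespace Pool.Agent.N575.LDT

open Filter Topology Finset
open scoped RealInnerProductSpace

variable {n : ℕ}

/-- decision trees without shallow tests -/
inductive RTree (n : ℕ) : Type
  | leaf (b : Bool) : RTree n
  | tri (t : Tri n) (next : SignType → RTree n) : RTree n
  | lin (L : Edge n → ℝ) (next : SignType → RTree n) : RTree n

/-- the answer -/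
noncomputable def RTree.run : RTree n → Wts n → Bool
  | .leaf b, _ => b
  | .tri t next, w => (next (SignType.sign (wt w t))).run w
  | .lin L next, w => (next (SignType.sign (∑ e, L e * w e))).run w

/-- the triangles whose weights are tested -/
noncomputable def RTree.vis : RTree n → Wts n → List (Tri n)
  | .leaf _, _ => []
  | .tri t next, w => t :: (next (SignType.sign (wt w t))).vis w
  | .lin L next, w => (next (SignType.sign (∑ e, L e * w e))).vis w

/-- the number of the linear tests -/
noncomputable def RTree.lins : RTree n → Wts n → ℕ
  | .leaf _, _ => 0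
  | .tri t next, w => (next (SignType.sign (wt w t))).lins w
  | .lin L next, w => (next (SignType.sign (∑ e, L e * w e))).lins w + 1

/-- the reduction near a potential -/
noncomputable def red : Tree n → (Fin 3 × Fin n → ℝ) → RTree n
  | .leaf b, _ => .leaf b
  | .free f _ next, x => red (next (f (pot x))) x
  | .tri t next, x => .tri t fun s => red (next s) x
  | .lin L next, x =>
    open Classical in
    if ∑ e, L e * pot x e = 0 then .lin L fun s => red (next s) x
    else red (next (SignType.sign (∑ e, L e * pot x e))) x

/-- the reduced tree describes the tree near the potential -/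
def RGood (t : Tree n) (x : Fin 3 × Fin n → ℝ) : Prop :=
  ∀ u : Wts n, ∀ᶠ ε in 𝓝[>] (0 : ℝ), t.run (pot x + ε • u) = (red t x).run u ∧
    t.tris (pot x + ε • u) = ((red t x).vis u).length ∧
      (red t x).lins u ≤ t.lins (pot x + ε • u)

theorem rgood (t : Tree n) : ∀ᶠ x in residual (Fin 3 × Fin n → ℝ), RGood t x := by
  induction t with
  | leaf b => exact Eventually.of_forall fun x u => Eventually.of_forall fun ε => ⟨rfl, rfl, le_rfl⟩
  | free f hf next ih =>
    filter_upwards [shallow_residual hf, eventually_countable_forall.2 ih] with x h1 h2 u
    filter_upwards [h2 (f (pot x)) u, (tendsto_line (pot x) u).eventually h1] with ε h4 h5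
    unfold Tree.run Tree.tris Tree.lins red
    rw [h5]
    exact h4
  | tri t next ih =>
    filter_upwards [eventually_countable_forall.2 ih] with x h2 u
    filter_upwards [h2 (SignType.sign (wt u t)) u, self_mem_nhdsWithin] with ε h4 h5
    have h6 : SignType.sign (wt (pot x + ε • u) t) = SignType.sign (wt u t) := by
      rw [wt_add_smul, sign_mul_pos h5]
    unfold Tree.run Tree.tris Tree.lins red RTree.run RTree.vis RTree.lins
    rw [h6, List.length_cons, h4.1, h4.2.1]
    exact ⟨rfl, rfl, h4.2.2⟩
  | lin L next ih =>
    filter_upwards [eventually_countable_forall.2 ih] with x h2 u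
    by_cases h0 : ∑ e, L e * pot x e = 0
    · filter_upwards [h2 (SignType.sign (∑ e, L e * u e)) u, self_mem_nhdsWithin] with ε h4 h5
      have h6 : SignType.sign (∑ e, L e * (pot x + ε • u) e) =
          SignType.sign (∑ e, L e * u e) := by
        rw [lin_add_smul, h0, zero_add, sign_mul_pos h5]
      unfold Tree.run Tree.tris Tree.lins red
      rw [if_pos h0]
      unfold RTree.run RTree.vis RTree.lins
      rw [h6, h4.1, h4.2.1]
      exact ⟨rfl, rfl, Nat.add_le_add_right h4.2.2 1⟩
    · have hc : Continuous (fun w : Wts n => ∑ e, L e * w e) := by fun_prop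
      have h7 : ∀ᶠ w in 𝓝 (pot x), SignType.sign (∑ e, L e * w e) =
          SignType.sign (∑ e, L e * pot x e) := by
        rcases lt_or_gt_of_ne h0 with h | h
        · filter_upwards [hc.continuousAt.eventually (gt_mem_nhds h)] with w hw
          rw [sign_neg hw, sign_neg h]
        · filter_upwards [hc.continuousAt.eventually (lt_mem_nhds h)] with w hw
          rw [sign_pos hw, sign_pos h]
      filter_upwards [h2 (SignType.sign (∑ e, L e * pot x e)) u,
        (tendsto_line (pot x) u).eventually h7] with ε h4 h5
      unfold Tree.run Tree.tris Tree.lins red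
      rw [if_neg h0, h5]
      exact ⟨h4.1, h4.2.1, h4.2.2.trans (Nat.le_succ _)⟩

/-! ### removal of the tests of triangles -/

/-- Tests of triangles are not made, their outcome is assumed to be positive. At most `m` linear
tests are made. The tree accepts if the original tree accepts and `τ` has not been asked for. -/
noncomputable def strip (τ : Tri n) : RTree n → ℕ → Bool → LTree (HW n)
  | .leaf b, _, c => .leaf (b && c)
  | .tri t next, m, c => strip τ (next 1) m (c && !decide (t = τ))
  | .lin _ _, 0, _ => .leaf false
  | .lin L next, m + 1, c => .node (WithLp.toLp 2 L) fun s => strip τ (next s) m c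

theorem strip_length (τ : Tri n) (r : RTree n) (m : ℕ) (c : Bool) (u : HW n) :
    ((strip τ r m c).path u).length ≤ m := by
  induction r generalizing m c with
  | leaf b =>
    unfold strip
    rw [path_leaf]
    exact Nat.zero_le _
  | tri t next ih =>
    unfold strip
    exact ih _ _ _
  | lin L next ih =>
    cases m with
    | zero =>
      unfold strip
      rw [path_leaf]
      exact Nat.zero_le _
    | succ m =>
      unfold strip
      rw [path_node, List.length_cons]
      exact Nat.succ_le_succ (ih _ _ _)

theorem strip_indep (τ τ' : Tri n) (r : RTree n) (m : ℕ) (c c' : Bool) (u : HW n) :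
    (strip τ r m c).path u = (strip τ' r m c').path u := by
  induction r generalizing m c c' with
  | leaf b =>
    unfold strip
    rw [path_leaf, path_leaf]
  | tri t next ih =>
    unfold strip
    exact ih _ _ _ _
  | lin L next ih =>
    cases m with
    | zero =>
      unfold strip
      rfl
    | succ m =>
      unfold strip
      rw [path_node, path_node]
      exact congrArg _ (ih _ _ _ _)

theorem inner_toLp (L : Edge n → ℝ) (u : HW n) :
    ⟪(WithLp.toLp 2 L : HW n), u⟫ = ∑ e, L e * u e := inner_eq _ _

/-- acceptance of the stripped tree is correct if all other triangles have positive weights -/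
theorem strip_sound (τ : Tri n) (r : RTree n) (m : ℕ) (c : Bool) (u : HW n)
    (hu : ∀ s, s ≠ τ → 0 < wt (fun e => u e) s) (h : (strip τ r m c).run u = true) :
    r.run (fun e => u e) = true ∧ c = true ∧ τ ∉ r.vis (fun e => u e) := by
  induction r generalizing m c with
  | leaf b =>
    unfold strip at h
    rw [run_leaf, Bool.and_eq_true] at h
    exact ⟨h.1, h.2, List.not_mem_nil⟩
  | tri t next ih =>
    unfold strip at h
    obtain ⟨h1, h2, h3⟩ := ih 1 _ _ h
    rw [Bool.and_eq_true, Bool.not_eq_true', decide_eq_false_iff_not] at h2
    unfold RTree.run RTree.vis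
    rw [sign_pos (hu t h2.2)]
    refine ⟨h1, h2.1, ?_⟩
    rw [List.mem_cons]
    rintro (h4 | h4)
    · exact h2.2 h4.symm
    · exact h3 h4
  | lin L next ih =>
    cases m with
    | zero =>
      unfold strip at h
      rw [run_leaf] at h
      exact absurd h (by simp)
    | succ m =>
      unfold strip at h
      rw [run_node, inner_toLp] at h
      exact ih _ _ _ h

/-- acceptance passes to the stripped tree unless `τ` is asked for -/
theorem strip_complete (τ : Tri n) (r : RTree n) (m : ℕ) (u : HW n)
    (hu : ∀ s, 0 < wt (fun e => u e) s) (h : r.run (fun e => u e) = true)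
    (hτ : τ ∉ r.vis (fun e => u e)) (hm : r.lins (fun e => u e) ≤ m) :
    (strip τ r m true).run u = true := by
  induction r generalizing m with
  | leaf b =>
    unfold strip
    rw [run_leaf, Bool.and_true]
    exact h
  | tri t next ih =>
    unfold RTree.run at h
    unfold RTree.vis at hτ
    unfold RTree.lins at hm
    rw [sign_pos (hu t)] at h hτ hm
    rw [List.mem_cons, not_or] at hτ
    unfold strip
    have h1 : (true && !decide (t = τ)) = true := by
      have : t ≠ τ := fun h => hτ.1 h.symm
      simp [this]
    rw [h1]
    exact ih 1 m h hτ.2 hm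
  | lin L next ih =>
    unfold RTree.run at h
    unfold RTree.vis at hτ
    unfold RTree.lins at hm
    cases m with
    | zero => exact absurd hm (by omega)
    | succ m =>
      unfold strip
      rw [run_node, inner_toLp]
      exact ih _ m h hτ (Nat.le_of_succ_le_succ hm)

/-- the sum over the triangles of the squares of the projections to the span of a path -/
theorem sum_dir (ls : List (HW n)) (c : ℝ) :
    ∑ τ : Tri n, ‖dir (c • ind τ) ls‖ ^ 2 ≤ c ^ 2 * (3 * n * ls.length) := by
  classical
  have h1 : ∀ τ : Tri n, ‖dir (c • ind τ) ls‖ ^ 2 =
      c ^ 2 * ‖(spn ls).orthogonalProjectionOnto (ind τ)‖ ^ 2 := by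
    intro τ
    unfold dir
    rw [map_smul, norm_smul, mul_pow, Real.norm_eq_abs, sq_abs]
    rfl
  rw [sum_congr rfl fun τ _ => h1 τ, ← mul_sum]
  refine mul_le_mul_of_nonneg_left ((sum_proj (spn ls)).trans ?_) (sq_nonneg c)
  have hdim : Module.finrank ℝ (spn ls) ≤ ls.length := by
    unfold spn
    have e : {x : HW n | x ∈ ls} = ((ls.toFinset : Finset (HW n)) : Set (HW n)) := by
      ext x
      simp
    rw [e]
    exact (finrank_span_finset_le_card _).trans (List.toFinset_card_le _)
  have : (Module.finrank ℝ (spn ls) : ℝ) ≤ ls.length := by exact_mod_cast hdim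
  exact mul_le_mul_of_nonneg_left this (by positivity)

end Pool.Agent.N575.LDT
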