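import Mathlib
import Pool.Agent.N575.LDT.Red

/-!
# The lower bound for random trees with errors on both sides
-/

set_option autoImplicit false

namespace Pool.Agent.N575.LDT

open Filter Topology Finset MeasureTheory ProbabilityTheory
open scoped RealInnerProductSpace

variable {n : ℕ}

/-- `1` if the answer is `true` -/
noncomputable def acc (b : Bool) : ℝ := if b = true then 1 else 0

theorem acc_nonneg (b : Bool) : 0 ≤ acc b := by
  unfold acc
  split_ifs <;> norm_num

theorem acc_le (b : Bool) : acc b ≤ 1 := by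
  unfold acc
  split_ifs <;> norm_num

theorem card_tri (n : ℕ) : ((univ : Finset (Tri n)).card : ℝ) = (n : ℝ) ^ 3 := by
  rw [card_univ, Fintype.card_prod, Fintype.card_prod, Fintype.card_fin]
  push_cast
  ring

theorem yes_point {ι : Type} [Fintype ι] {p : ι → ℝ} (hp : ∀ i, 0 ≤ p i) (R : ι → RTree n)
    {T q : ℝ} {m : ℕ} (hm : 9 * q ≤ m + 1) (u : HW n) (hpos : ∀ s, 0 < wt (fun e => u e) s)
    (hy : 2 / 3 ≤ ∑ i, p i * acc ((R i).run fun e => u e))
    (hT : ∑ i, p i * ((R i).vis fun e => u e).length ≤ T)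
    (hq : ∑ i, p i * (R i).lins (fun e => u e) ≤ q) :
    5 / 9 * (n : ℝ) ^ 3 - T ≤ ∑ τ : Tri n, ∑ i, p i * acc ((strip τ (R i) m true).run u) := by
  classical
  have hm0 : (0 : ℝ) < m + 1 := by positivity
  have hpt : ∀ (τ : Tri n) (i : ι), acc ((R i).run fun e => u e) -
      (if τ ∈ (R i).vis (fun e => u e) then (1 : ℝ) else 0) -
      (R i).lins (fun e => u e) / (m + 1 : ℝ) ≤ acc ((strip τ (R i) m true).run u) := by
    intro τ i
    have hl0 : (0 : ℝ) ≤ (R i).lins (fun e => u e) / (m + 1 : ℝ) := by positivity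
    by_cases h1 : (R i).run (fun e => u e) = true
    · by_cases h2 : τ ∈ (R i).vis (fun e => u e)
      · rw [if_pos h2]
        linarith [acc_le ((R i).run fun e => u e), acc_nonneg ((strip τ (R i) m true).run u)]
      · by_cases h3 : (R i).lins (fun e => u e) ≤ m
        · rw [strip_complete τ (R i) m u hpos h1 h2 h3, if_neg h2]
          have : acc true = 1 := by unfold acc; rw [if_pos rfl]
          rw [this]
          linarith [acc_le ((R i).run fun e => u e)]
        · push Not at h3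
          have h4 : (1 : ℝ) ≤ (R i).lins (fun e => u e) / (m + 1 : ℝ) := by
            rw [le_div_iff₀ hm0, one_mul]
            exact_mod_cast h3
          have h5 : (0 : ℝ) ≤ (if τ ∈ (R i).vis (fun e => u e) then (1 : ℝ) else 0) := by
            split_ifs <;> norm_num
          linarith [acc_le ((R i).run fun e => u e), acc_nonneg ((strip τ (R i) m true).run u)]
    · have h6 : acc ((R i).run fun e => u e) = 0 := by
        unfold acc
        rw [if_neg h1]
      have h5 : (0 : ℝ) ≤ (if τ ∈ (R i).vis (fun e => u e) then (1 : ℝ) else 0) := by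
        split_ifs <;> norm_num
      linarith [acc_nonneg ((strip τ (R i) m true).run u)]
  have hsum : ∑ τ : Tri n, ∑ i, p i * (acc ((R i).run fun e => u e) -
      (if τ ∈ (R i).vis (fun e => u e) then (1 : ℝ) else 0) -
      (R i).lins (fun e => u e) / (m + 1 : ℝ)) ≤
      ∑ τ : Tri n, ∑ i, p i * acc ((strip τ (R i) m true).run u) :=
    sum_le_sum fun τ _ => sum_le_sum fun i _ => mul_le_mul_of_nonneg_left (hpt τ i) (hp i)
  refine le_trans ?_ hsum
  simp only [mul_sub, sum_sub_distrib]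
  have e1 : ∑ _τ : Tri n, ∑ i, p i * acc ((R i).run fun e => u e) =
      (n : ℝ) ^ 3 * ∑ i, p i * acc ((R i).run fun e => u e) := by
    rw [sum_const, nsmul_eq_mul, card_tri]
  have e2 : ∑ _τ : Tri n, ∑ i, p i * ((R i).lins (fun e => u e) / (m + 1 : ℝ)) =
      (n : ℝ) ^ 3 * ((∑ i, p i * (R i).lins (fun e => u e)) / (m + 1)) := by
    rw [sum_const, nsmul_eq_mul, card_tri, sum_div]
    congr 1
    exact sum_congr rfl fun i _ => by ring
  have e3 : ∑ τ : Tri n, ∑ i, p i * (if τ ∈ (R i).vis (fun e => u e) then (1 : ℝ) else 0) ≤ T := by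
    rw [sum_comm]
    refine le_trans (sum_le_sum fun i _ => ?_) hT
    rw [← mul_sum]
    refine mul_le_mul_of_nonneg_left ?_ (hp i)
    have h : (univ.filter fun τ => τ ∈ (R i).vis (fun e => u e)).card ≤
        ((R i).vis (fun e => u e)).length :=
      (card_le_card fun τ h => List.mem_toFinset.2 (mem_filter.1 h).2).trans
        (List.toFinset_card_le _)
    rw [sum_boole]
    exact_mod_cast h
  have h7 : (∑ i, p i * (R i).lins (fun e => u e)) / (m + 1 : ℝ) ≤ 1 / 9 := by
    rw [div_le_iff₀ hm0]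
    linarith
  rw [e1, e2]
  have hn0 : (0 : ℝ) ≤ (n : ℝ) ^ 3 := by positivity
  have h8 := mul_le_mul_of_nonneg_left h7 hn0
  have h9 := mul_le_mul_of_nonneg_left hy hn0
  linarith

theorem no_point {ι : Type} [Fintype ι] {p : ι → ℝ} (hp : ∀ i, 0 ≤ p i) (R : ι → RTree n)
    (m : ℕ) (τ : Tri n) (u : HW n) (hpos : ∀ s, s ≠ τ → 0 < wt (fun e => u e) s)
    (hn : ∑ i, p i * acc ((R i).run fun e => u e) ≤ 1 / 3) :
    ∑ i, p i * acc ((strip τ (R i) m true).run u) ≤ 1 / 3 := by
  refine le_trans (sum_le_sum fun i _ => mul_le_mul_of_nonneg_left ?_ (hp i)) hn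
  by_cases h : (strip τ (R i) m true).run u = true
  · rw [h, (strip_sound τ (R i) m true u hpos h).1]
  · have : acc ((strip τ (R i) m true).run u) = 0 := by
      unfold acc
      rw [if_neg h]
    rw [this]
    exact acc_nonneg _

/-! ### integrals -/

theorem int_acc (r : LTree (HW n)) (P : HW n) :
    Integrable (fun g => acc (r.run (P + g))) (stdGaussian (HW n)) ∧
      ∫ g, acc (r.run (P + g)) ∂(stdGaussian (HW n)) = pr r P := by
  have hm := acc_meas r P
  have e : (fun g => acc (r.run (P + g))) =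
      {g | r.run (P + g) = true}.indicator (fun _ => (1 : ℝ)) := by
    funext g
    unfold acc
    by_cases h : r.run (P + g) = true
    · rw [if_pos h, Set.indicator_of_mem (by exact h)]
    · rw [if_neg h, Set.indicator_of_notMem (by exact h)]
  rw [e]
  refine ⟨(integrable_const _).indicator hm, ?_⟩
  rw [integral_indicator hm, setIntegral_const, smul_eq_mul, mul_one]
  rfl

/-- the set of noises which are small for all triangles -/
def small (n : ℕ) (a : ℝ) : Set (HW n) := {g | ∀ s : Tri n, |⟪ind s, g⟫| < a}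

theorem small_meas (n : ℕ) (a : ℝ) : MeasurableSet (small n a) := by
  have e : small n a = ⋂ s : Tri n, {g : HW n | |⟪ind s, g⟫| < a} := by
    ext g
    simp [small]
  rw [e]
  refine MeasurableSet.iInter fun s => measurableSet_lt ?_ measurable_const
  fun_prop

theorem norm_ind (s : Tri n) : ‖ind s‖ ^ 2 = 3 := by
  rw [← real_inner_self_eq_norm_sq, ind_self]

theorem small_compl (hn : 1 ≤ n) :
    (stdGaussian (HW n)).real (small n √(6 * (3 * Real.log n + 5)))ᶜ ≤ 2 * Real.exp (-5) := by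
  obtain ⟨a, ha⟩ : ∃ a, a = √(6 * (3 * Real.log n + 5)) := ⟨_, rfl⟩
  have hlog : 0 ≤ Real.log n := Real.log_natCast_nonneg n
  have ha0 : 0 ≤ a := by rw [ha]; exact Real.sqrt_nonneg _
  have ha2 : a ^ 2 = 6 * (3 * Real.log n + 5) := by rw [ha, Real.sq_sqrt (by positivity)]
  rw [← ha]
  have hn0 : (0 : ℝ) < n := by exact_mod_cast hn
  have hexp : Real.exp (-(3 * Real.log n + 5)) = Real.exp (-5) / (n : ℝ) ^ 3 := by
    have : -(3 * Real.log n + 5) = -5 - 3 * Real.log n := by ring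
    rw [this, Real.exp_sub]
    congr 1
    rw [mul_comm, Real.exp_mul, Real.exp_log hn0]
    norm_num
  have ht : ∀ v : HW n, ‖v‖ ^ 2 = 3 → (stdGaussian (HW n)).real {g | a ≤ ⟪v, g⟫} ≤
      Real.exp (-5) / (n : ℝ) ^ 3 := by
    intro v hv
    have hv0 : 0 < ‖v‖ := by
      rcases (norm_nonneg v).eq_or_lt with h | h
      · rw [← h] at hv
        norm_num at hv
      · exact h
    refine (tail v ha0 hv0).trans (le_of_eq ?_)
    rw [hv, ha2, ← hexp]
    congr 1
    ring
  have hsub : (small n a)ᶜ ⊆ ⋃ s ∈ (univ : Finset (Tri n)),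
      ({g : HW n | a ≤ ⟪ind s, g⟫} ∪ {g : HW n | a ≤ ⟪-ind s, g⟫}) := by
    intro g hg
    rw [Set.mem_compl_iff, small, Set.mem_ofPred_eq, not_forall] at hg
    obtain ⟨s, hs⟩ := hg
    rw [not_lt, le_abs] at hs
    rw [Set.mem_iUnion₂]
    refine ⟨s, mem_univ _, ?_⟩
    rw [Set.mem_union, Set.mem_ofPred_eq, Set.mem_ofPred_eq, inner_neg_left]
    exact hs
  refine (measureReal_mono hsub (measure_ne_top _ _)).trans ?_
  refine (measureReal_biUnion_finset_le _ _).trans ?_
  have h1 : ∀ s ∈ (univ : Finset (Tri n)), (stdGaussian (HW n)).real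
      ({g : HW n | a ≤ ⟪ind s, g⟫} ∪ {g : HW n | a ≤ ⟪-ind s, g⟫}) ≤
      2 * (Real.exp (-5) / (n : ℝ) ^ 3) := by
    intro s _
    refine (measureReal_union_le _ _).trans ?_
    have h2 := ht (ind s) (norm_ind s)
    have h3 := ht (-ind s) (by rw [norm_neg, norm_ind])
    linarith
  refine (sum_le_sum h1).trans (le_of_eq ?_)
  rw [sum_const, nsmul_eq_mul, card_tri]
  field_simp

theorem exp5 : 2 * Real.exp (-5) ≤ 1 / 70 := by
  have h1 := Real.exp_one_gt_d9
  have h2 : (140 : ℝ) ≤ Real.exp 5 := by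
    have : Real.exp 5 = Real.exp 1 ^ 5 := by
      rw [← Real.exp_nat_mul]
      norm_num
    rw [this]
    calc (140 : ℝ) ≤ (2.7 : ℝ) ^ 5 := by norm_num
      _ ≤ Real.exp 1 ^ 5 := pow_le_pow_left₀ (by norm_num) (by linarith) 5
  rw [Real.exp_neg]
  have h3 : (Real.exp 5)⁻¹ ≤ 140⁻¹ := inv_anti₀ (by norm_num) h2
  linarith

/-- the base point -/
noncomputable def base (n : ℕ) (a : ℝ) : HW n := WithLp.toLp 2 fun _ => 2 * a / 3

theorem wt_base (a : ℝ) (g : HW n) (s : Tri n) :
    wt (fun e => (base n a + g) e) s = 2 * a + ⟪ind s, g⟫ := by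
  rw [inner_ind]
  unfold wt base
  simp only [PiLp.add_apply]
  ring

theorem wt_shift (a : ℝ) (g : HW n) (τ s : Tri n) :
    wt (fun e => (base n a - a • ind τ + g) e) s = 2 * a - a * ⟪ind s, ind τ⟫ + ⟪ind s, g⟫ := by
  rw [inner_ind, inner_ind]
  unfold wt base
  simp only [PiLp.add_apply, PiLp.sub_apply, PiLp.smul_apply, smul_eq_mul]
  ring

theorem core {ι : Type} [Fintype ι] {p : ι → ℝ} (hp : ∀ i, 0 ≤ p i) (hp1 : ∑ i, p i = 1)
    (R : ι → RTree n) (hn1 : 1 ≤ n) {T q : ℝ}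
    (hy : ∀ u : Wts n, (∀ s, 0 < wt u s) → 2 / 3 ≤ ∑ i, p i * acc ((R i).run u) ∧
      ∑ i, p i * ((R i).vis u).length ≤ T ∧ ∑ i, p i * (R i).lins u ≤ q)
    (hn : ∀ (u : Wts n) (τ : Tri n), wt u τ < 0 → (∀ s, s ≠ τ → 0 < wt u s) →
      ∑ i, p i * acc ((R i).run u) ≤ 1 / 3) :
    (n : ℝ) ^ 3 ≤ 5 * T + 64 * n ^ 2 * √(q * (3 * Real.log n + 5)) := by
  obtain ⟨ℓ, hℓ⟩ : ∃ ℓ, ℓ = 3 * Real.log n + 5 := ⟨_, rfl⟩
  have hlog : 0 ≤ Real.log n := Real.log_natCast_nonneg n
  have hℓ0 : 0 < ℓ := by rw [hℓ]; positivity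
  obtain ⟨a, ha⟩ : ∃ a, a = √(6 * ℓ) := ⟨_, rfl⟩
  have ha0 : 0 < a := by rw [ha]; exact Real.sqrt_pos.2 (by positivity)
  have ha2 : a ^ 2 = 6 * ℓ := by rw [ha, Real.sq_sqrt (by positivity)]
  have hδ := (small_compl hn1).trans exp5
  rw [← hℓ, ← ha] at hδ
  obtain ⟨N, hN⟩ : ∃ N, N = small n a := ⟨_, rfl⟩
  have hNm : MeasurableSet N := by rw [hN]; exact small_meas n a
  rw [← hN] at hδ
  obtain ⟨μ, hμ⟩ : ∃ μ, μ = stdGaussian (HW n) := ⟨_, rfl⟩
  have : IsProbabilityMeasure μ := by rw [hμ]; infer_instance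
  rw [← hμ] at hδ
  have hN1 : μ.real N = 1 - μ.real Nᶜ := by
    have := probReal_add_probReal_compl (μ := μ) hNm
    linarith
  -- nonnegativity of the bounds
  have hthird := hy third (fun s => by rw [wt_third]; exact one_pos)
  have hT0 : 0 ≤ T := le_trans (sum_nonneg fun i _ => mul_nonneg (hp i) (Nat.cast_nonneg _)) hthird.2.1
  have hq0 : 0 ≤ q := le_trans (sum_nonneg fun i _ => mul_nonneg (hp i) (Nat.cast_nonneg _)) hthird.2.2
  obtain ⟨m, hm⟩ : ∃ m : ℕ, m = ⌊9 * q⌋₊ := ⟨_, rfl⟩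
  have hm1 : 9 * q ≤ m + 1 := by rw [hm]; exact (Nat.lt_floor_add_one _).le
  have hm2 : (m : ℝ) ≤ 9 * q := by rw [hm]; exact Nat.floor_le (by positivity)
  obtain ⟨r, hr⟩ : ∃ r : Tri n → ι → LTree (HW n), r = fun τ i => strip τ (R i) m true := ⟨_, rfl⟩
  obtain ⟨P, hP⟩ : ∃ P : HW n, P = base n a := ⟨_, rfl⟩
  have hFi : ∀ τ i (x : HW n), Integrable (fun g => p i * acc ((r τ i).run (x + g))) μ := by
    intro τ i x
    rw [hμ]
    exact (int_acc (r τ i) x).1.const_mul _
  have hF : ∫ g, (∑ τ : Tri n, ∑ i, p i * acc ((r τ i).run (P + g))) ∂μ =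
      ∑ τ : Tri n, ∑ i, p i * pr (r τ i) P := by
    rw [integral_finsetSum _ fun τ _ => integrable_finsetSum _ fun i _ => hFi τ i P]
    refine sum_congr rfl fun τ _ => ?_
    rw [integral_finsetSum _ fun i _ => hFi τ i P]
    refine sum_congr rfl fun i _ => ?_
    rw [integral_const_mul, hμ, (int_acc (r τ i) P).2]
  have hG : ∫ g, (∑ τ : Tri n, ∑ i, p i * acc ((r τ i).run (P - a • ind τ + g))) ∂μ =
      ∑ τ : Tri n, ∑ i, p i * pr (r τ i) (P - a • ind τ) := by
    rw [integral_finsetSum _ fun τ _ => integrable_finsetSum _ fun i _ => hFi τ i (P - a • ind τ)]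
    refine sum_congr rfl fun τ _ => ?_
    rw [integral_finsetSum _ fun i _ => hFi τ i (P - a • ind τ)]
    refine sum_congr rfl fun i _ => ?_
    rw [integral_const_mul, hμ, (int_acc (r τ i) (P - a • ind τ)).2]
  have hFI : Integrable (fun g => ∑ τ : Tri n, ∑ i, p i * acc ((r τ i).run (P + g))) μ :=
    integrable_finsetSum _ fun τ _ => integrable_finsetSum _ fun i _ => hFi τ i P
  have hGI : Integrable (fun g => ∑ τ : Tri n, ∑ i, p i * acc ((r τ i).run (P - a • ind τ + g))) μ :=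
    integrable_finsetSum _ fun τ _ => integrable_finsetSum _ fun i _ => hFi τ i (P - a • ind τ)
  -- lower bound for `F`
  have h1 : (5 / 9 * (n : ℝ) ^ 3 - T) * μ.real N ≤
      ∫ g, (∑ τ : Tri n, ∑ i, p i * acc ((r τ i).run (P + g))) ∂μ := by
    have h2 : ∫ _g in N, (5 / 9 * (n : ℝ) ^ 3 - T) ∂μ ≤
        ∫ g in N, (∑ τ : Tri n, ∑ i, p i * acc ((r τ i).run (P + g))) ∂μ := by
      refine setIntegral_mono_on (integrable_const _).integrableOn hFI.integrableOn hNm ?_
      intro g hg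
      rw [hN] at hg
      have hpos : ∀ s, 0 < wt (fun e => (P + g) e) s := by
        intro s
        rw [hP, wt_base]
        have := (abs_lt.1 (hg s)).1
        linarith
      have h3 := hy _ hpos
      have h4 := yes_point hp R (T := T) (q := q) hm1 (P + g) hpos h3.1 h3.2.1 h3.2.2
      rw [hr]
      exact h4
    rw [setIntegral_const, smul_eq_mul, mul_comm] at h2
    refine h2.trans ?_
    refine setIntegral_le_integral hFI (Eventually.of_forall fun g => ?_)
    exact sum_nonneg fun τ _ => sum_nonneg fun i _ => mul_nonneg (hp i) (acc_nonneg _)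
  -- upper bound for `G`
  have h2 : ∫ g, (∑ τ : Tri n, ∑ i, p i * acc ((r τ i).run (P - a • ind τ + g))) ∂μ ≤
      1 / 3 * (n : ℝ) ^ 3 + (n : ℝ) ^ 3 * μ.real Nᶜ := by
    have h3 : ∀ g, (∑ τ : Tri n, ∑ i, p i * acc ((r τ i).run (P - a • ind τ + g))) ≤
        1 / 3 * (n : ℝ) ^ 3 + Nᶜ.indicator (fun _ => (n : ℝ) ^ 3) g := by
      intro g
      by_cases hg : g ∈ N
      · rw [Set.indicator_of_notMem (Set.notMem_compl_iff.2 hg), add_zero]
        rw [hN] at hg
        have h4 : ∀ τ : Tri n, ∑ i, p i * acc ((r τ i).run (P - a • ind τ + g)) ≤ 1 / 3 := by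
          intro τ
          have h5 : wt (fun e => (P - a • ind τ + g) e) τ < 0 := by
            rw [hP, wt_shift, ind_self]
            have := (abs_lt.1 (hg τ)).2
            linarith
          have h6 : ∀ s, s ≠ τ → 0 < wt (fun e => (P - a • ind τ + g) e) s := by
            intro s hs
            rw [hP, wt_shift]
            have h7 := (abs_lt.1 (hg s)).1
            have h8 := mul_le_mul_of_nonneg_left (ind_ne hs) ha0.le
            linarith
          rw [hr]
          exact no_point hp R m τ _ h6 (hn _ τ h5 h6)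
        refine (sum_le_sum fun τ _ => h4 τ).trans (le_of_eq ?_)
        rw [sum_const, nsmul_eq_mul, card_tri]
        ring
      · rw [Set.indicator_of_mem hg]
        have h4 : ∀ τ : Tri n, ∑ i, p i * acc ((r τ i).run (P - a • ind τ + g)) ≤ 1 := by
          intro τ
          rw [← hp1]
          refine sum_le_sum fun i _ => ?_
          calc p i * acc ((r τ i).run (P - a • ind τ + g)) ≤ p i * 1 :=
                mul_le_mul_of_nonneg_left (acc_le _) (hp i)
            _ = p i := mul_one _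
        have h5 : (∑ τ : Tri n, ∑ i, p i * acc ((r τ i).run (P - a • ind τ + g))) ≤ (n : ℝ) ^ 3 := by
          refine (sum_le_sum fun τ _ => h4 τ).trans (le_of_eq ?_)
          rw [sum_const, nsmul_eq_mul, card_tri]
          ring
        have h6 : (0 : ℝ) ≤ 1 / 3 * (n : ℝ) ^ 3 := by positivity
        linarith
    have hi : Integrable (fun g => 1 / 3 * (n : ℝ) ^ 3 + Nᶜ.indicator (fun _ => (n : ℝ) ^ 3) g) μ :=
      (integrable_const _).add ((integrable_const _).indicator hNm.compl)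
    refine (integral_mono hGI hi h3).trans (le_of_eq ?_)
    rw [integral_add (integrable_const _) ((integrable_const _).indicator hNm.compl),
      integral_indicator hNm.compl, setIntegral_const, integral_const]
    simp [mul_comm]
  -- the main inequality
  have h3 : ∑ τ : Tri n, ∑ i, p i * pr (r τ i) P ≤
      ∑ τ : Tri n, ∑ i, p i * pr (r τ i) (P - a • ind τ) +
        ∑ τ : Tri n, ∑ i, p i *
          √(∫ g, ‖dir (a • ind τ) ((r τ i).path (P + g))‖ ^ 2 ∂(stdGaussian (HW n))) := by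
    rw [← sum_add_distrib]
    refine sum_le_sum fun τ _ => ?_
    rw [← sum_add_distrib]
    refine sum_le_sum fun i _ => ?_
    rw [← mul_add]
    exact mul_le_mul_of_nonneg_left (main_ineq (r τ i) P (a • ind τ)) (hp i)
  -- the bound for the projections
  have h4 : ∀ i, ∑ τ : Tri n,
      √(∫ g, ‖dir (a • ind τ) ((r τ i).path (P + g))‖ ^ 2 ∂(stdGaussian (HW n))) ≤
        (n : ℝ) ^ 2 * √(162 * (q * ℓ)) := by
    intro i
    obtain ⟨D, hD⟩ : ∃ D : Tri n → ℝ, D = fun τ =>
      ∫ g, ‖dir (a • ind τ) ((r τ i).path (P + g))‖ ^ 2 ∂(stdGaussian (HW n)) := ⟨_, rfl⟩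
    have hD0 : ∀ τ, 0 ≤ D τ := fun τ => by
      rw [hD]; exact integral_nonneg fun g => sq_nonneg _
    have hDs : ∑ τ, D τ ≤ a ^ 2 * (3 * n * m) := by
      rw [hD]
      dsimp only
      have hi : ∀ τ : Tri n, Integrable
          (fun g => ‖dir (a • ind τ) ((r τ i).path (P + g))‖ ^ 2) (stdGaussian (HW n)) := by
        intro τ
        have hF : Measurable fun g : HW n => dir (a • ind τ) ((r τ i).path (P + g)) :=
          (measurable_tree (r τ i) fun _ l => dir (a • ind τ) l).comp (measurable_const_add P)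
        refine (integrable_const (‖a • ind τ‖ ^ 2)).mono'
          ((hF.norm.pow_const 2).aestronglyMeasurable) ?_
        refine Filter.Eventually.of_forall fun g => ?_
        rw [Real.norm_eq_abs, abs_of_nonneg (sq_nonneg _)]
        exact pow_le_pow_left₀ (norm_nonneg _) (norm_dir_le _ _) 2
      rw [← integral_finsetSum _ fun τ _ => hi τ]
      have hb : ∀ g : HW n, ∑ τ : Tri n, ‖dir (a • ind τ) ((r τ i).path (P + g))‖ ^ 2 ≤
          a ^ 2 * (3 * n * m) := by
        intro g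
        have hn0 : 0 < n := hn1
        obtain ⟨τ₀⟩ : Nonempty (Tri n) := ⟨(⟨0, hn0⟩, ⟨0, hn0⟩, ⟨0, hn0⟩)⟩
        have e : ∀ τ : Tri n, (r τ i).path (P + g) = (r τ₀ i).path (P + g) := by
          intro τ
          rw [hr]
          exact strip_indep τ τ₀ (R i) m true true (P + g)
        rw [sum_congr rfl fun τ _ => by rw [e τ]]
        refine (sum_dir _ _).trans ?_
        refine mul_le_mul_of_nonneg_left ?_ (sq_nonneg a)
        have : (((r τ₀ i).path (P + g)).length : ℝ) ≤ m := by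
          rw [hr]
          exact_mod_cast strip_length τ₀ (R i) m true (P + g)
        exact mul_le_mul_of_nonneg_left this (by positivity)
      calc ∫ g, ∑ τ : Tri n, ‖dir (a • ind τ) ((r τ i).path (P + g))‖ ^ 2 ∂(stdGaussian (HW n))
          ≤ ∫ _g, a ^ 2 * (3 * n * m) ∂(stdGaussian (HW n)) :=
            integral_mono (integrable_finsetSum _ fun τ _ => hi τ) (integrable_const _) hb
        _ = a ^ 2 * (3 * n * m) := by rw [integral_const]; simp
    have h5 : (∑ τ, √(D τ)) ^ 2 ≤ ((n : ℝ) ^ 2 * √(162 * (q * ℓ))) ^ 2 := by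
      have h6 : (∑ τ, √(D τ)) ^ 2 ≤ (univ : Finset (Tri n)).card * ∑ τ, √(D τ) ^ 2 :=
        sq_sum_le_card_mul_sum_sq
      rw [card_tri, sum_congr rfl fun τ _ => Real.sq_sqrt (hD0 τ)] at h6
      refine h6.trans ?_
      rw [mul_pow, Real.sq_sqrt (by positivity)]
      have h7 : (n : ℝ) ^ 3 * ∑ τ, D τ ≤ (n : ℝ) ^ 3 * (a ^ 2 * (3 * n * m)) :=
        mul_le_mul_of_nonneg_left hDs (by positivity)
      refine h7.trans ?_
      rw [ha2]
      have h8 : (n : ℝ) ^ 4 * (18 * ℓ) * m ≤ (n : ℝ) ^ 4 * (18 * ℓ) * (9 * q) :=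
        mul_le_mul_of_nonneg_left hm2 (by positivity)
      nlinarith
    have h6 := abs_le_of_sq_le_sq h5 (by positivity)
    rw [hD] at h6
    exact (abs_le.1 h6).2
  have h5 : ∑ τ : Tri n, ∑ i, p i *
      √(∫ g, ‖dir (a • ind τ) ((r τ i).path (P + g))‖ ^ 2 ∂(stdGaussian (HW n))) ≤
        (n : ℝ) ^ 2 * √(162 * (q * ℓ)) := by
    rw [sum_comm]
    calc ∑ i, ∑ τ : Tri n, p i *
        √(∫ g, ‖dir (a • ind τ) ((r τ i).path (P + g))‖ ^ 2 ∂(stdGaussian (HW n)))
        ≤ ∑ i, p i * ((n : ℝ) ^ 2 * √(162 * (q * ℓ))) := by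
          refine sum_le_sum fun i _ => ?_
          rw [← mul_sum]
          exact mul_le_mul_of_nonneg_left (h4 i) (hp i)
      _ = (n : ℝ) ^ 2 * √(162 * (q * ℓ)) := by rw [← sum_mul, hp1, one_mul]
  rw [hF] at h1
  rw [hG] at h2
  have h6 : 5 * √(162 * (q * ℓ)) ≤ 64 * √(q * ℓ) := by
    have h7 : √(162 * (q * ℓ)) ≤ (64 / 5) * √(q * ℓ) := by
      rw [Real.sqrt_le_left (by positivity), mul_pow, Real.sq_sqrt (by positivity)]
      have : 0 ≤ q * ℓ := by positivity
      linarith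
    linarith
  rw [← hℓ]
  have hn3 : (0 : ℝ) ≤ (n : ℝ) ^ 3 := by positivity
  have h7 : (5 / 9 * (n : ℝ) ^ 3 - T) * μ.real N ≤ 1 / 3 * (n : ℝ) ^ 3 +
      (n : ℝ) ^ 3 * μ.real Nᶜ + (n : ℝ) ^ 2 * √(162 * (q * ℓ)) := by linarith
  rw [hN1] at h7
  have h8 : (n : ℝ) ^ 3 * μ.real Nᶜ ≤ (n : ℝ) ^ 3 * (1 / 70) := mul_le_mul_of_nonneg_left hδ hn3
  have h9 : 0 ≤ T * μ.real Nᶜ := mul_nonneg hT0 measureReal_nonneg
  have h10 := mul_le_mul_of_nonneg_left h6 (by positivity : (0 : ℝ) ≤ (n : ℝ) ^ 2)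
  nlinarith

end Pool.Agent.N575.LDT
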