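import Mathlib
import Pool.Agent.N575.LDT.Asm

/-!
# Decision trees for shortest paths in graphs with three layers
-/

set_option autoImplicit false

namespace Pool.Agent.N575.LDT

open Filter Topology Finset
open scoped RealInnerProductSpace

variable {n : ℕ}

/-- The weights of a directed graph with three layers of `n` vertices: `A i j` is the length of the
edge from the vertex `i` of the first to the vertex `j` of the second layer, `B j k` is the length of
the edge from `j` to the vertex `k` of the third layer, and `C i k` is the length of the edge from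
`i` to `k`. The lengths `C i k` are written with the sign `-`, so that the weight of the triangle
`(i, j, k)` is `A i j + B j k - C i k`. -/
def lengths (A B C : Fin n → Fin n → ℝ) : Wts n := fun e =>
  if e.1 = 0 then A e.2.1 e.2.2 else if e.1 = 1 then B e.2.1 e.2.2 else -C e.2.1 e.2.2

theorem wt_lengths (A B C : Fin n → Fin n → ℝ) (s : Tri n) :
    wt (lengths A B C) s = A s.1 s.2.1 + B s.2.1 s.2.2 - C s.1 s.2.2 := by
  unfold wt lengths
  simp
  ring

/-- all lengths are close to `1`, `1` and `2` -/
def Near (δ : ℝ) (A B C : Fin n → Fin n → ℝ) : Prop :=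
  ∀ i j, |A i j - 1| < δ ∧ |B i j - 1| < δ ∧ |C i j - 2| < δ

/-- Decision trees with outputs in `β`. A node asks for the value of a shallow function of the
weights, for the sign of the weight of a triangle, or for the sign of any linear form in the
weights. -/
inductive Alg (n : ℕ) (β : Type) : Type
  | leaf (b : β) : Alg n β
  | free (f : Wts n → ℤ) (hf : Shallow f) (next : ℤ → Alg n β) : Alg n β
  | tri (t : Tri n) (next : SignType → Alg n β) : Alg n β
  | lin (L : Edge n → ℝ) (next : SignType → Alg n β) : Alg n β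

/-- the output -/
noncomputable def Alg.run {β : Type} : Alg n β → Wts n → β
  | .leaf b, _ => b
  | .free f _ next, w => (next (f w)).run w
  | .tri t next, w => (next (SignType.sign (wt w t))).run w
  | .lin L next, w => (next (SignType.sign (∑ e, L e * w e))).run w

/-- the number of the tests of the weights of triangles which are made for the weights `w` -/
noncomputable def Alg.tris {β : Type} : Alg n β → Wts n → ℕ
  | .leaf _, _ => 0
  | .free f _ next, w => (next (f w)).tris w
  | .tri t next, w => (next (SignType.sign (wt w t))).tris w + 1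
  | .lin L next, w => (next (SignType.sign (∑ e, L e * w e))).tris w

/-- the number of the other tests of linear forms which are made for the weights `w` -/
noncomputable def Alg.lins {β : Type} : Alg n β → Wts n → ℕ
  | .leaf _, _ => 0
  | .free f _ next, w => (next (f w)).lins w
  | .tri t next, w => (next (SignType.sign (wt w t))).lins w
  | .lin L next, w => (next (SignType.sign (∑ e, L e * w e))).lins w + 1

/-- replacement of the outputs -/
def Alg.toTree {β : Type} (φ : β → Bool) : Alg n β → Tree n
  | .leaf b => .leaf (φ b)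
  | .free f hf next => .free f hf fun s => (next s).toTree φ
  | .tri t next => .tri t fun s => (next s).toTree φ
  | .lin L next => .lin L fun s => (next s).toTree φ

theorem toTree_spec {β : Type} (φ : β → Bool) (a : Alg n β) (w : Wts n) :
    (a.toTree φ).run w = φ (a.run w) ∧ (a.toTree φ).tris w = a.tris w ∧
      (a.toTree φ).lins w = a.lins w := by
  induction a with
  | leaf b => exact ⟨rfl, rfl, rfl⟩
  | free f hf next ih => exact ih (f w)
  | tri t next ih =>
    obtain ⟨h1, h2, h3⟩ := ih (SignType.sign (wt w t))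
    refine ⟨h1, ?_, h3⟩
    unfold Alg.toTree Tree.tris Alg.tris
    rw [h2]
  | lin L next ih =>
    obtain ⟨h1, h2, h3⟩ := ih (SignType.sign (∑ e, L e * w e))
    refine ⟨h1, h2, ?_⟩
    unfold Alg.toTree Tree.lins Alg.lins
    rw [h3]

/-- the lower bound -/
theorem final {ι : Type} [Fintype ι] {p : ι → ℝ} (hp : ∀ i, 0 ≤ p i) (hp1 : ∑ i, p i = 1)
    (t : ι → Tree n) (hn1 : 1 ≤ n) {δ T q : ℝ} (hδ : 0 < δ)
    (hy : ∀ A B C : Fin n → Fin n → ℝ, Near δ A B C → (∀ i j k, C i k < A i j + B j k) →
      2 / 3 ≤ ∑ i, p i * acc ((t i).run (lengths A B C)) ∧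
      ∑ i, p i * (t i).tris (lengths A B C) ≤ T ∧ ∑ i, p i * (t i).lins (lengths A B C) ≤ q)
    (hn : ∀ A B C : Fin n → Fin n → ℝ, Near δ A B C →
      ∀ i j k, A i j + B j k < C i k →
        (∀ i' j' k', (i', j', k') ≠ (i, j, k) → C i' k' < A i' j' + B j' k') →
        ∑ i, p i * acc ((t i).run (lengths A B C)) ≤ 1 / 3) :
    (n : ℝ) ^ 3 ≤ 5 * T + 64 * n ^ 2 * √(q * (3 * Real.log n + 5)) := by
  classical
  -- the centre
  obtain ⟨xs, hxs⟩ : ∃ xs : Fin 3 × Fin n → ℝ,
      xs = fun v => if v.1 = 0 then 2 else if v.1 = 1 then 1 else 0 := ⟨_, rfl⟩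
  have hc : ∀ (w : Wts n), w = lengths (fun i j => w (0, i, j)) (fun j k => w (1, j, k))
      (fun i k => -w (2, i, k)) := by
    intro w
    funext e
    obtain ⟨c, i, j⟩ := e
    unfold lengths
    fin_cases c <;> simp
  have hpot : pot xs = (lengths (fun _ _ => 1) (fun _ _ => 1) (fun _ _ => 2) : Wts n) := by
    funext e
    obtain ⟨c, i, j⟩ := e
    rw [hxs]
    unfold pot lengths
    fin_cases c <;> simp <;> norm_num
  have hopen : ∀ᶠ x in 𝓝 xs, ∀ᶠ w in 𝓝 (pot x : Wts n), Near δ (fun i j => w (0, i, j))
      (fun j k => w (1, j, k)) (fun i k => -w (2, i, k)) := by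
    have h1 : ∀ᶠ w in 𝓝 (pot xs : Wts n), Near δ (fun i j => w (0, i, j))
        (fun j k => w (1, j, k)) (fun i k => -w (2, i, k)) := by
      unfold Near
      refine eventually_all.2 fun i => eventually_all.2 fun j => ?_
      have h2 : ∀ (F : Wts n → ℝ), Continuous F → F (pot xs) = 0 →
          ∀ᶠ w in 𝓝 (pot xs : Wts n), |F w| < δ := by
        intro F hF h0
        have h3 : |F (pot xs)| < δ := by rw [h0, abs_zero]; exact hδ
        exact (hF.abs.continuousAt).eventually (gt_mem_nhds h3)
      refine (h2 (fun w => w (0, i, j) - 1) (by fun_prop) ?_).and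
        ((h2 (fun w => w (1, i, j) - 1) (by fun_prop) ?_).and
          (h2 (fun w => -w (2, i, j) - 2) (by fun_prop) ?_))
      · rw [hpot]; simp [lengths]
      · rw [hpot]; simp [lengths]
      · rw [hpot]; simp [lengths]
    exact pot_continuous.continuousAt.eventually (eventually_eventually_nhds.2 h1)
  obtain ⟨U, hU, hUo, hUx⟩ := eventually_nhds_iff.1 hopen
  obtain ⟨x, hxU, hx⟩ : ∃ x, x ∈ U ∧ ∀ i, RGood (t i) x := by
    have hd : Dense {x | ∀ i, RGood (t i) x} :=
      dense_of_mem_residual (eventually_countable_forall.2 fun i => rgood (t i))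
    obtain ⟨x, h1, h2⟩ := hd.inter_open_nonempty U hUo ⟨xs, hUx⟩
    exact ⟨x, h1, h2⟩
  have hnear := hU x hxU
  have hev : ∀ u : Wts n, ∃ ε : ℝ, 0 < ε ∧ Near δ (fun i j => (pot x + ε • u) (0, i, j))
      (fun j k => (pot x + ε • u) (1, j, k)) (fun i k => -(pot x + ε • u) (2, i, k)) ∧
      ∀ i, (t i).run (pot x + ε • u) = (red (t i) x).run u ∧
        (t i).tris (pot x + ε • u) = ((red (t i) x).vis u).length ∧
        (red (t i) x).lins u ≤ (t i).lins (pot x + ε • u) := by
    intro u
    have h1 : ∀ᶠ ε in 𝓝[>] (0 : ℝ), ∀ i, (t i).run (pot x + ε • u) = (red (t i) x).run u ∧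
        (t i).tris (pot x + ε • u) = ((red (t i) x).vis u).length ∧
        (red (t i) x).lins u ≤ (t i).lins (pot x + ε • u) := eventually_all.2 fun i => hx i u
    obtain ⟨ε, ⟨h2, h3⟩, h4⟩ :=
      ((h1.and ((tendsto_line (pot x) u).eventually hnear)).and self_mem_nhdsWithin).exists
    exact ⟨ε, h4, h3, h2⟩
  refine core hp hp1 (fun i => red (t i) x) hn1 (T := T) (q := q) ?_ ?_
  · intro u hu
    obtain ⟨ε, hε, h1, h2⟩ := hev u
    have h3 := hy _ _ _ h1 (by
      intro i j k
      have h4 : 0 < wt (pot x + ε • u) (i, j, k) := by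
        rw [wt_add_smul]
        exact mul_pos hε (hu _)
      unfold wt at h4
      dsimp only at h4
      linarith)
    rw [← hc] at h3
    refine ⟨h3.1.trans (le_of_eq ?_), le_trans (le_of_eq ?_) h3.2.1, le_trans ?_ h3.2.2⟩
    · exact sum_congr rfl fun i _ => by rw [(h2 i).1]
    · exact sum_congr rfl fun i _ => by rw [(h2 i).2.1]
    · refine sum_le_sum fun i _ => mul_le_mul_of_nonneg_left ?_ (hp i)
      exact_mod_cast (h2 i).2.2
  · intro u τ hτ hu
    obtain ⟨ε, hε, h1, h2⟩ := hev u
    have h3 := hn _ _ _ h1 τ.1 τ.2.1 τ.2.2 (by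
      have h4 : wt (pot x + ε • u) τ < 0 := by
        rw [wt_add_smul]
        exact mul_neg_of_pos_of_neg hε hτ
      unfold wt at h4
      linarith) (by
      intro i j k hne
      have h4 : 0 < wt (pot x + ε • u) (i, j, k) := by
        rw [wt_add_smul]
        exact mul_pos hε (hu _ hne)
      unfold wt at h4
      dsimp only at h4
      linarith)
    rw [← hc] at h3
    refine le_trans (le_of_eq ?_) h3
    exact sum_congr rfl fun i _ => by rw [(h2 i).1]

end Pool.Agent.N575.LDT
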